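import Pool.Agent.H8.KS6.BoxC

/-!
# Deficits of the rows of the plank directions

`F.vdf p σ r U N a s t Θ` is the deficit of the digits of the position beyond the levels `r` (first
coordinate) and `U` (second coordinate), up to the digit `N`, given the static box
`(r, U, N; a, s, t)` and the variable `Θ`. It is nonincreasing in `r` and `U` and nondecreasing in
`N`. Two-point rule, change of the frame, Principle M, the entropy of a block of rows beyond a box.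
-/

set_option autoImplicit false

namespace Pool.KA

open Finset Real
open Pool.Agent.H49.Ent Pool.Agent.H32.Dense Pool.STK Pool.K2S

variable {J : ℕ}

/-- The deficit of the rows of the plank directions beyond a static box. -/
noncomputable def Fam.vdf (F : Fam 3 J) (p : F.Ω → ℝ) (σ : Fin 3 → Fin 3) (r U N : ℕ)
    (a s t : F.Ω → ℝ) {τ : Type} (Θ : F.Ω → τ) : ℝ :=
  (((N : ℝ) - r) + ((N : ℝ) - U)) * Real.log 2 -
    CH p (F.X N) (fun ω => (F.sbx σ r U N a s t ω, Θ ω))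

namespace Vd

section floor

variable {Ω S : Type} [Fintype Ω] {p : Ω → ℝ}

theorem fl_lift {x y : ℝ} {k k' : ℕ} (h : k ≤ k') (e : ⌊(2 : ℝ) ^ k' * x⌋ = ⌊(2 : ℝ) ^ k' * y⌋) :
    ⌊(2 : ℝ) ^ k * x⌋ = ⌊(2 : ℝ) ^ k * y⌋ := by
  obtain ⟨d, rfl⟩ := Nat.exists_eq_add_of_le h
  have key : ∀ z : ℝ, ⌊(2 : ℝ) ^ k * z⌋ = ⌊(2 : ℝ) ^ (k + d) * z⌋ / 2 ^ d := by
    intro z
    have e1 : (2 : ℝ) ^ k * z = (2 : ℝ) ^ (k + d) * z / ((2 ^ d : ℕ) : ℝ) := by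
      push_cast
      rw [pow_add]
      field_simp
    rw [e1, Int.floor_div_natCast]
    norm_num
  rw [key, key, e]

/-- The next digits of a real variable. -/
theorem CH_digits (hp : IsLaw p) {k k' : ℕ} (h : k ≤ k') (x : Ω → ℝ) (W : Ω → S)
    (hW : Det p W (fun ω => ⌊(2 : ℝ) ^ k * x ω⌋)) :
    CH p (fun ω => ⌊(2 : ℝ) ^ k' * x ω⌋) W ≤ ((k' : ℝ) - k) * Real.log 2 := by
  obtain ⟨d, rfl⟩ := Nat.exists_eq_add_of_le h
  have h0 := hp.nonneg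
  have k1 : CH p (fun ω => ⌊(2 : ℝ) ^ (k + d) * x ω⌋) W ≤
      CH p (fun ω => ⌊(2 : ℝ) ^ (k + d) * x ω⌋) (fun ω => ⌊(2 : ℝ) ^ k * x ω⌋) :=
    CH_mono_cond h0 hW
  refine k1.trans ((CH_le_card h0 hp.sum_one _ _
    (fun c : ℤ => Finset.Ico (2 ^ d * c) (2 ^ d * c + 2 ^ d)) ?_).trans (le_of_eq ?_))
  · intro ω _
    rw [Finset.mem_Ico]
    have e : (2 : ℝ) ^ (k + d) * x ω = 2 ^ d * (2 ^ k * x ω) := by
      rw [pow_add]
      ring
    rw [e]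
    have h2 := Int.floor_le ((2 : ℝ) ^ k * x ω)
    have h3 := Int.lt_floor_add_one ((2 : ℝ) ^ k * x ω)
    have hd : (0 : ℝ) < 2 ^ d := by positivity
    constructor
    · refine Int.le_floor.2 ?_
      push_cast
      exact mul_le_mul_of_nonneg_left h2 hd.le
    · refine Int.floor_lt.2 ?_
      push_cast
      have := mul_lt_mul_of_pos_left h3 hd
      linarith
  · have e : ∀ c : ℤ, ((Finset.Ico (2 ^ d * c) (2 ^ d * c + 2 ^ d)).card : ℝ) = 2 ^ d := by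
      intro c
      rw [Int.card_Ico]
      have e1 : (2 ^ d * c + 2 ^ d - 2 ^ d * c : ℤ) = ((2 ^ d : ℕ) : ℤ) := by
        push_cast
        ring
      rw [e1, Int.toNat_natCast]
      push_cast
      rfl
    simp only [e]
    rw [Ex_const hp.sum_one, Real.log_pow]
    push_cast
    ring

end floor

section sbx

variable {F : Fam 3 J} {p : F.Ω → ℝ} {σ : Fin 3 → Fin 3} {a s t a' s' t' : F.Ω → ℝ}
  {S τ τ' : Type}

/-- The coordinates of the position in the frame. -/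
noncomputable def co (F : Fam 3 J) (σ : Fin 3 → Fin 3) (a s t : F.Ω → ℝ) (i : Fin 3)
    (ω : F.Ω) : ℝ := mco (tfr σ (a ω) (s ω) (t ω)) (F.x ω) i

/-- The static box in terms of the digits of the coordinates. -/
theorem sbx_ext {r U P : ℕ} {ω ω' : F.Ω} : F.sbx σ r U P a s t ω = F.sbx σ r U P a s t ω' ↔
    (a ω = a ω' ∧ s ω = s ω' ∧ t ω = t ω') ∧
      ⌊(2 : ℝ) ^ r * co F σ a s t 0 ω⌋ = ⌊(2 : ℝ) ^ r * co F σ a s t 0 ω'⌋ ∧
      ⌊(2 : ℝ) ^ U * co F σ a s t 1 ω⌋ = ⌊(2 : ℝ) ^ U * co F σ a s t 1 ω'⌋ ∧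
      ⌊(2 : ℝ) ^ P * co F σ a s t 2 ω⌋ = ⌊(2 : ℝ) ^ P * co F σ a s t 2 ω'⌋ := by
  constructor
  · intro h
    have h1 := Prod.ext_iff.mp h
    have h2 := Prod.ext_iff.mp h1.1
    have h3 := Prod.ext_iff.mp h2.2
    exact ⟨⟨h2.1, h3.1, h3.2⟩, congrFun h1.2 0, congrFun h1.2 1, congrFun h1.2 2⟩
  · rintro ⟨⟨h1, h2, h3⟩, h4, h5, h6⟩
    refine Prod.ext (Prod.ext h1 (Prod.ext h2 h3)) ?_
    funext i
    fin_cases i
    · exact h4
    · exact h5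
    · exact h6

/-- A finer box determines a coarser box in the same frame. -/
theorem sbx_lift {r U P r' U' P' : ℕ} (h1 : r ≤ r') (h2 : U ≤ U') (h3 : P ≤ P') {ω ω' : F.Ω}
    (h : F.sbx σ r' U' P' a s t ω = F.sbx σ r' U' P' a s t ω') :
    F.sbx σ r U P a s t ω = F.sbx σ r U P a s t ω' := by
  rw [sbx_ext] at h ⊢
  exact ⟨h.1, fl_lift h1 h.2.1, fl_lift h2 h.2.2.1, fl_lift h3 h.2.2.2⟩

/-- The number of the finer boxes in a box. -/
theorem CH_sbx_rate (hp : IsLaw p) {r U P r' U' P' : ℕ} (h1 : r ≤ r') (h2 : U ≤ U') (h3 : P ≤ P')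
    (W : F.Ω → S) (hW : Det p W (F.sbx σ r U P a s t)) :
    CH p (F.sbx σ r' U' P' a s t) W ≤
      (((r' : ℝ) - r) + ((U' : ℝ) - U) + ((P' : ℝ) - P)) * Real.log 2 := by
  have h0 := hp.nonneg
  have k0 : CH p (F.sbx σ r' U' P' a s t) W ≤ CH p (fun ω =>
      (⌊(2 : ℝ) ^ r' * co F σ a s t 0 ω⌋, (⌊(2 : ℝ) ^ U' * co F σ a s t 1 ω⌋,
        ⌊(2 : ℝ) ^ P' * co F σ a s t 2 ω⌋))) W := by
    refine CH_mono_left h0 ?_
    intro ω ω' hω hω' e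
    have e1 := Prod.ext_iff.mp e
    have e2 := Prod.ext_iff.mp e1.1
    have e3 := Prod.ext_iff.mp e2.2
    rw [sbx_ext]
    exact ⟨((sbx_ext).1 (hW ω ω' hω hω' e1.2)).1, e2.1, e3.1, e3.2⟩
  have k1 := CH_subadd h0 (fun ω => ⌊(2 : ℝ) ^ r' * co F σ a s t 0 ω⌋) (fun ω =>
    (⌊(2 : ℝ) ^ U' * co F σ a s t 1 ω⌋, ⌊(2 : ℝ) ^ P' * co F σ a s t 2 ω⌋)) W
  have k2 := CH_subadd h0 (fun ω => ⌊(2 : ℝ) ^ U' * co F σ a s t 1 ω⌋)
    (fun ω => ⌊(2 : ℝ) ^ P' * co F σ a s t 2 ω⌋) W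
  have d1 := CH_digits hp h1 (co F σ a s t 0) W (fun ω ω' a b e => ((sbx_ext).1 (hW ω ω' a b e)).2.1)
  have d2 := CH_digits hp h2 (co F σ a s t 1) W
    (fun ω ω' a b e => ((sbx_ext).1 (hW ω ω' a b e)).2.2.1)
  have d3 := CH_digits hp h3 (co F σ a s t 2) W
    (fun ω ω' a b e => ((sbx_ext).1 (hW ω ω' a b e)).2.2.2)
  have e : (((r' : ℝ) - r) + ((U' : ℝ) - U) + ((P' : ℝ) - P)) * Real.log 2 =
    ((r' : ℝ) - r) * Real.log 2 + ((U' : ℝ) - U) * Real.log 2 + ((P' : ℝ) - P) * Real.log 2 := by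
    ring
  rw [e]
  linarith

/-! ### Monotonicity -/

/-- The deficit is nonincreasing in the levels of the plank directions. -/
theorem vdf_mono (hp : IsLaw p) {r U r' U' N : ℕ} (h1 : r ≤ r') (h2 : U ≤ U') (Θ : F.Ω → τ) :
    F.vdf p σ r' U' N a s t Θ ≤ F.vdf p σ r U N a s t Θ := by
  have h0 := hp.nonneg
  unfold Fam.vdf
  have k1 := CH_le_add h0 (F.X N) (F.sbx σ r' U' N a s t)
    (fun ω => (F.sbx σ r U N a s t ω, Θ ω))
  have k2 := CH_sbx_rate (σ := σ) (a := a) (s := s) (t := t) hp h1 h2 (le_refl N)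
    (fun ω => (F.sbx σ r U N a s t ω, Θ ω)) (fun _ _ _ _ e => (Prod.ext_iff.mp e).1)
  have k3 : CH p (F.X N) (fun ω => (F.sbx σ r' U' N a s t ω,
      (F.sbx σ r U N a s t ω, Θ ω))) ≤
      CH p (F.X N) (fun ω => (F.sbx σ r' U' N a s t ω, Θ ω)) :=
    CH_mono_cond h0 fun ω ω' _ _ e => Prod.ext (Prod.ext_iff.mp e).1
      (Prod.ext_iff.mp (Prod.ext_iff.mp e).2).2
  have e : (((r' : ℝ) - r) + ((U' : ℝ) - U) + ((N : ℝ) - N)) * Real.log 2 =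
    (((N : ℝ) - r) + ((N : ℝ) - U)) * Real.log 2 -
      (((N : ℝ) - r') + ((N : ℝ) - U')) * Real.log 2 := by ring
  linarith

/-- The condition determines the triple of the frame. -/
def Fd (p : F.Ω → ℝ) (Θ : F.Ω → τ) (a s t : F.Ω → ℝ) : Prop :=
  Det p Θ (fun ω => (a ω, s ω, t ω))

theorem Fd.eq {Θ : F.Ω → τ} (h : Fd p Θ a s t) {ω ω' : F.Ω} (hω : 0 < p ω) (hω' : 0 < p ω')
    (e : Θ ω = Θ ω') : a ω = a ω' ∧ s ω = s ω' ∧ t ω = t ω' := by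
  have h1 := Prod.ext_iff.mp (h ω ω' hω hω' e)
  have h2 := Prod.ext_iff.mp h1.2
  exact ⟨h1.1, h2.1, h2.2⟩

/-- Change of the frame of a static box. -/
theorem CH_sbx_chg (hp : IsLaw p) {r U P r₀ U₀ P₀ : ℕ} {D : ℝ} (hD : 1 ≤ D) (h1 : r ≤ r₀)
    (h2 : U ≤ U₀) (h3 : P ≤ P₀)
    (hn : ∀ ω, 0 < p ω → |a' ω - a ω| ≤ D * 2 ^ r₀ / 2 ^ U ∧ |s' ω - s ω| ≤ D * 2 ^ U₀ / 2 ^ P ∧
      |(t' ω - t ω) + (s' ω - s ω) * a ω| ≤ D * 2 ^ r₀ / 2 ^ P)
    (W : F.Ω → S) (hW : Det p W (F.sbx σ r₀ U₀ P₀ a s t)) (hW' : Fd p W a' s' t') :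
    CH p (F.sbx σ r U P a' s' t') W ≤ (3 : ℕ) * Real.log (6 * D + 3) := by
  have key := Box.CH_sbx (F := F) (σ := σ) (a := a') (s := s') (t := t') (r := r) (U := U)
    (P := P) (C := (3 : ℕ) * D * 1) hp W (by
      intro ω ω' hω hω' h
      refine ⟨hW'.eq hω hω' h, ?_⟩
      obtain ⟨⟨b1, b2, b3⟩, b4, b5, b6⟩ := (sbx_ext).1 (hW ω ω' hω hω' h)
      have hl := Box.cg_tfr σ (a ω) (s ω) (t ω) (a' ω) (s' ω) (t' ω)
      have near : ∀ i, |mco (tfr σ (a ω) (s ω) (t ω)) (F.x ω) i -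
          mco (tfr σ (a ω) (s ω) (t ω)) (F.x ω') i| ≤ 1 / 2 ^ ppr r₀ U₀ P₀ i := by
        intro i
        have e : co F σ a s t i ω' = mco (tfr σ (a ω) (s ω) (t ω)) (F.x ω') i := by
          unfold co
          rw [b1, b2, b3]
        rw [← e]
        fin_cases i
        · exact Box.near_of_floor b4
        · exact Box.near_of_floor b5
        · exact Box.near_of_floor b6
      intro i
      rw [hl, hl]
      exact Box.lin_near (by linarith) near (Box.tch_le hD h1 h2 h3 (hn ω hω).1 (hn ω hω).2.1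
        (hn ω hω).2.2 i))
  refine key.trans (le_of_eq ?_)
  congr 2
  push_cast
  ring

/-- **One block of a path, with change of the frame.** -/
theorem vdf_step (hp : IsLaw p) {r U N r' U' : ℕ} {B D : ℝ} (hB : 1 ≤ B) (hD : 1 ≤ D)
    (h1 : r ≤ r') (h2 : U ≤ U') (h3 : r' ≤ N) (h4 : U' ≤ N)
    (hb : ∀ ω, 0 < p ω → |a' ω| ≤ B ∧ |s' ω| ≤ B ∧ |t' ω| ≤ B)
    (hn : ∀ ω, 0 < p ω → |a ω - a' ω| ≤ D * 2 ^ r' / 2 ^ U ∧ |s ω - s' ω| ≤ D * 2 ^ U' / 2 ^ N ∧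
      |(t ω - t' ω) + (s ω - s' ω) * a' ω| ≤ D * 2 ^ r' / 2 ^ N)
    (Θ : F.Ω → τ) (Θ' : F.Ω → τ') (hΘ : Det p Θ' Θ) (hf : Fd p Θ' a s t)
    (hf' : Fd p Θ' a' s' t') :
    F.vdf p σ r U N a s t Θ ≤ ((((r' : ℝ) - r) + ((U' : ℝ) - U)) * Real.log 2 -
      CH p (F.sbx σ r' U' N a' s' t') (fun ω => (F.sbx σ r U N a s t ω, Θ' ω))) +
      F.vdf p σ r' U' N a' s' t' Θ' +
      ((3 : ℕ) * Real.log (6 * B + 3) + (3 : ℕ) * Real.log (6 * D + 3)) := by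
  have h0 := hp.nonneg
  unfold Fam.vdf
  have k1 : CH p (F.X N) (fun ω => (F.sbx σ r U N a s t ω, Θ' ω)) ≤
      CH p (F.X N) (fun ω => (F.sbx σ r U N a s t ω, Θ ω)) :=
    CH_mono_cond h0 fun ω ω' x y e => Prod.ext (Prod.ext_iff.mp e).1
      (hΘ ω ω' x y (Prod.ext_iff.mp e).2)
  have k2 := CH_chain h0 (F.X N) (F.sbx σ r' U' N a' s' t')
    (fun ω => (F.sbx σ r U N a s t ω, Θ' ω))
  have k3 := CH_chain h0 (F.sbx σ r' U' N a' s' t') (F.X N)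
    (fun ω => (F.sbx σ r U N a s t ω, Θ' ω))
  have k4 : CH p (fun ω => (F.X N ω, F.sbx σ r' U' N a' s' t' ω))
      (fun ω => (F.sbx σ r U N a s t ω, Θ' ω)) =
      CH p (fun ω => (F.sbx σ r' U' N a' s' t' ω, F.X N ω))
      (fun ω => (F.sbx σ r U N a s t ω, Θ' ω)) := by
    refine CH_congr h0 ?_ ?_ (fun _ _ _ _ e => e) (fun _ _ _ _ e => e)
    · intro ω ω' _ _ e
      have e1 := Prod.ext_iff.mp (Prod.ext_iff.mp e).1
      exact Prod.ext e1.2 e1.1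
    · intro ω ω' _ _ e
      have e1 := Prod.ext_iff.mp (Prod.ext_iff.mp e).1
      exact Prod.ext e1.2 e1.1
  have k5 := Box.CH_sbx_of_X (F := F) (σ := σ) (a := a') (s := s') (t := t') hp (K := N)
    (r := r') (U := U') (P := N) hB h3 h4 le_rfl hb
    (fun ω => (F.X N ω, (F.sbx σ r U N a s t ω, Θ' ω))) (by
      intro ω ω' hω hω' e
      exact ⟨(Prod.ext_iff.mp e).1, hf'.eq hω hω' (Prod.ext_iff.mp (Prod.ext_iff.mp e).2).2⟩)
  have k6 := CH_le_add h0 (F.X N) (F.sbx σ r U N a s t)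
    (fun ω => (F.sbx σ r' U' N a' s' t' ω, Θ' ω))
  have k7 := CH_sbx_chg (σ := σ) (a := a') (s := s') (t := t') (a' := a) (s' := s) (t' := t)
    hp hD h1 h2 (le_refl N) hn (fun ω => (F.sbx σ r' U' N a' s' t' ω, Θ' ω))
    (fun _ _ _ _ e => (Prod.ext_iff.mp e).1) (fun ω ω' x y e => hf ω ω' x y (Prod.ext_iff.mp e).2)
  have k8 : CH p (F.X N) (fun ω => (F.sbx σ r U N a s t ω,
      (F.sbx σ r' U' N a' s' t' ω, Θ' ω))) =
      CH p (F.X N) (fun ω => (F.sbx σ r' U' N a' s' t' ω, (F.sbx σ r U N a s t ω, Θ' ω))) := by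
    refine CH_congr h0 (fun _ _ _ _ e => (Prod.ext_iff.mp e).1)
      (fun _ _ _ _ e => (Prod.ext_iff.mp e).1) ?_ ?_
    · intro ω ω' _ _ e
      have e1 := Prod.ext_iff.mp e
      have e2 := Prod.ext_iff.mp e1.2
      exact Prod.ext e2.1 (Prod.ext e1.1 e2.2)
    · intro ω ω' _ _ e
      have e1 := Prod.ext_iff.mp e
      have e2 := Prod.ext_iff.mp e1.2
      exact Prod.ext e2.1 (Prod.ext e1.1 e2.2)
  have e : (((N : ℝ) - r) + ((N : ℝ) - U)) * Real.log 2 =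
    (((r' : ℝ) - r) + ((U' : ℝ) - U)) * Real.log 2 +
      (((N : ℝ) - r') + ((N : ℝ) - U')) * Real.log 2 := by ring
  linarith

/-- Change of the frame at the same levels. -/
theorem vdf_chg (hp : IsLaw p) {r U N : ℕ} {B D : ℝ} (hB : 1 ≤ B) (hD : 1 ≤ D)
    (h3 : r ≤ N) (h4 : U ≤ N)
    (hb : ∀ ω, 0 < p ω → |a' ω| ≤ B ∧ |s' ω| ≤ B ∧ |t' ω| ≤ B)
    (hn : ∀ ω, 0 < p ω → Fnr r U N D (a' ω) (s' ω) (t' ω) (a ω) (s ω) (t ω))
    (Θ : F.Ω → τ) (hf : Fd p Θ a s t) (hf' : Fd p Θ a' s' t') :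
    F.vdf p σ r U N a s t Θ ≤ F.vdf p σ r U N a' s' t' Θ +
      ((3 : ℕ) * Real.log (6 * B + 3) + (3 : ℕ) * Real.log (6 * D + 3)) := by
  have key := vdf_step (σ := σ) (a := a) (s := s) (t := t) (a' := a') (s' := s') (t' := t') hp hB
    hD (le_refl r) (le_refl U) h3 h4 hb (fun ω hω => hn ω hω) Θ Θ (fun _ _ _ _ e => e) hf hf'
  have k := CH_nonneg hp.nonneg (F.sbx σ r U N a' s' t')
    (fun ω => (F.sbx σ r U N a s t ω, Θ ω))
  have e : (((r : ℝ) - r) + ((U : ℝ) - U)) * Real.log 2 = 0 := by ring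
  linarith

/-- A larger condition. -/
theorem vdf_cond (hp : IsLaw p) {r U N : ℕ} (Θ : F.Ω → τ) (Θ' : F.Ω → τ') (hΘ : Det p Θ' Θ) :
    F.vdf p σ r U N a s t Θ ≤ F.vdf p σ r U N a s t Θ' := by
  have h0 := hp.nonneg
  unfold Fam.vdf
  have k1 : CH p (F.X N) (fun ω => (F.sbx σ r U N a s t ω, Θ' ω)) ≤
      CH p (F.X N) (fun ω => (F.sbx σ r U N a s t ω, Θ ω)) :=
    CH_mono_cond h0 fun ω ω' x y e => Prod.ext (Prod.ext_iff.mp e).1
      (hΘ ω ω' x y (Prod.ext_iff.mp e).2)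
  linarith

/-! ### Chains in one frame -/

/-- Swapping the first two components of a condition. -/
theorem CH_swap {Ω S₁ S₂ S₃ S₄ : Type} [Fintype Ω] {p : Ω → ℝ} (h0 : ∀ ω, 0 ≤ p ω)
    (X : Ω → S₁) (Y : Ω → S₂) (Z : Ω → S₃) (W : Ω → S₄) :
    CH p X (fun ω => (Y ω, (Z ω, W ω))) = CH p X (fun ω => (Z ω, (Y ω, W ω))) := by
  refine CH_congr h0 (fun _ _ _ _ e => (Prod.ext_iff.mp e).1)
    (fun _ _ _ _ e => (Prod.ext_iff.mp e).1) ?_ ?_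
  · intro ω ω' _ _ e
    have e1 := Prod.ext_iff.mp e
    have e2 := Prod.ext_iff.mp e1.2
    exact Prod.ext e2.1 (Prod.ext e1.1 e2.2)
  · intro ω ω' _ _ e
    have e1 := Prod.ext_iff.mp e
    have e2 := Prod.ext_iff.mp e1.2
    exact Prod.ext e2.1 (Prod.ext e1.1 e2.2)

/-- `H(X | B) ≥ H(Y | B) + H(X | Y) - H(Y | X)` for `B` a function of `Y`. -/
theorem CH_two {Ω S₁ S₂ S₃ S₄ : Type} [Fintype Ω] {p : Ω → ℝ} (h0 : ∀ ω, 0 ≤ p ω)
    (X : Ω → S₁) (Y : Ω → S₂) (B : Ω → S₃) (W : Ω → S₄) (hB : Det p Y B) :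
    CH p Y (fun ω => (B ω, W ω)) + CH p X (fun ω => (Y ω, W ω)) ≤
      CH p X (fun ω => (B ω, W ω)) + CH p Y (fun ω => (X ω, (B ω, W ω))) := by
  have k2 := CH_chain h0 X Y (fun ω => (B ω, W ω))
  have k3 := CH_chain h0 Y X (fun ω => (B ω, W ω))
  have k4 : CH p (fun ω => (X ω, Y ω)) (fun ω => (B ω, W ω)) =
      CH p (fun ω => (Y ω, X ω)) (fun ω => (B ω, W ω)) := by
    refine CH_congr h0 ?_ ?_ (fun _ _ _ _ e => e) (fun _ _ _ _ e => e)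
    · intro ω ω' _ _ e
      have e1 := Prod.ext_iff.mp (Prod.ext_iff.mp e).1
      exact Prod.ext e1.2 e1.1
    · intro ω ω' _ _ e
      have e1 := Prod.ext_iff.mp (Prod.ext_iff.mp e).1
      exact Prod.ext e1.2 e1.1
  have k5 : CH p X (fun ω => (Y ω, W ω)) = CH p X (fun ω => (Y ω, (B ω, W ω))) := by
    refine CH_congr h0 (fun _ _ _ _ e => (Prod.ext_iff.mp e).1)
      (fun _ _ _ _ e => (Prod.ext_iff.mp e).1) ?_ ?_
    · intro ω ω' x y e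
      have e1 := Prod.ext_iff.mp e
      exact Prod.ext e1.1 (Prod.ext (hB ω ω' x y e1.1) e1.2)
    · intro ω ω' _ _ e
      have e1 := Prod.ext_iff.mp e
      exact Prod.ext e1.1 (Prod.ext_iff.mp e1.2).2
  linarith

/-- `H(X | B) ≤ H(Y | B) + H(X | Y)` for `B` a function of `Y`. -/
theorem CH_two_le {Ω S₁ S₂ S₃ S₄ : Type} [Fintype Ω] {p : Ω → ℝ} (h0 : ∀ ω, 0 ≤ p ω)
    (X : Ω → S₁) (Y : Ω → S₂) (B : Ω → S₃) (W : Ω → S₄) :
    CH p X (fun ω => (B ω, W ω)) ≤ CH p Y (fun ω => (B ω, W ω)) +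
      CH p X (fun ω => (Y ω, W ω)) := by
  have k1 := CH_le_add h0 X Y (fun ω => (B ω, W ω))
  have k2 : CH p X (fun ω => (Y ω, (B ω, W ω))) ≤ CH p X (fun ω => (Y ω, W ω)) :=
    CH_mono_cond h0 fun ω ω' _ _ e => Prod.ext (Prod.ext_iff.mp e).1
      (Prod.ext_iff.mp (Prod.ext_iff.mp e).2).2
  linarith

/-- The constant of the comparison of positions and static boxes. -/
noncomputable def K1 (B : ℝ) : ℝ := (3 : ℕ) * Real.log (6 * B + 3)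

/-- The constant of the comparison of static boxes and positions. -/
noncomputable def K2 (B : ℝ) : ℝ := (3 : ℕ) * Real.log (2 * (1 + 2 * B + B * B) + 3)

theorem CH_sbx_X (hp : IsLaw p) {r U P K : ℕ} {B : ℝ} (hB : 1 ≤ B) (h1 : r ≤ K) (h2 : U ≤ K)
    (h3 : P ≤ K) (hb : ∀ ω, 0 < p ω → |a ω| ≤ B ∧ |s ω| ≤ B ∧ |t ω| ≤ B) (W : F.Ω → S)
    (hW : Det p W (F.X K)) (hf : Fd p W a s t) : CH p (F.sbx σ r U P a s t) W ≤ K1 B :=
  Box.CH_sbx_of_X (F := F) (σ := σ) (a := a) (s := s) (t := t) hp hB h1 h2 h3 hb W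
    fun ω ω' hω hω' e => ⟨hW ω ω' hω hω' e, hf.eq hω hω' e⟩

theorem CH_X_sbx (hp : IsLaw p) (hσ : Function.Bijective σ) {r U P K : ℕ} {B : ℝ} (hB : 1 ≤ B)
    (h1 : K ≤ r) (h2 : K ≤ U) (h3 : K ≤ P)
    (hb : ∀ ω, 0 < p ω → |a ω| ≤ B ∧ |s ω| ≤ B ∧ |t ω| ≤ B) (W : F.Ω → S)
    (hW : Det p W (F.sbx σ r U P a s t)) : CH p (F.X K) W ≤ K2 B :=
  Box.CH_X_of_sbx (F := F) (σ := σ) (a := a) (s := s) (t := t) hp hσ hB h1 h2 h3 hb W
    fun ω ω' hω hω' e => hW ω ω' hω hω' e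

theorem fd_sbx {r U P : ℕ} (W : F.Ω → S) (hW : Det p W (F.sbx σ r U P a s t)) :
    Fd p W a s t := by
  intro ω ω' hω hω' e
  obtain ⟨⟨b1, b2, b3⟩, -⟩ := (sbx_ext).1 (hW ω ω' hω hω' e)
  rw [Prod.ext_iff, Prod.ext_iff]
  exact ⟨b1, b2, b3⟩

/-- The rows from a box to a finer box are full up to the deficit of the box. -/
theorem rows_full (hp : IsLaw p) (hσ : Function.Bijective σ) {r U N r' U' : ℕ} {B : ℝ}
    (hB : 1 ≤ B) (h3 : r' ≤ N) (h4 : U' ≤ N)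
    (hb : ∀ ω, 0 < p ω → |a ω| ≤ B ∧ |s ω| ≤ B ∧ |t ω| ≤ B) (Θ : F.Ω → τ) :
    (((r' : ℝ) - r) + ((U' : ℝ) - U)) * Real.log 2 - F.vdf p σ r U N a s t Θ - K2 B ≤
      CH p (F.sbx σ r' U' N a s t) (fun ω => (F.sbx σ r U N a s t ω, Θ ω)) := by
  have h0 := hp.nonneg
  unfold Fam.vdf
  have k1 := CH_two_le h0 (F.X N) (F.sbx σ r' U' N a s t) (F.sbx σ r U N a s t) Θ
  have k2 := CH_le_add h0 (F.X N) (F.sbx σ N N N a s t)
    (fun ω => (F.sbx σ r' U' N a s t ω, Θ ω))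
  have k3 := CH_sbx_rate (σ := σ) (a := a) (s := s) (t := t) hp h3 h4 (le_refl N)
    (fun ω => (F.sbx σ r' U' N a s t ω, Θ ω)) (fun _ _ _ _ e => (Prod.ext_iff.mp e).1)
  have k4 := CH_X_sbx (σ := σ) (a := a) (s := s) (t := t) hp hσ hB (le_refl N) (le_refl N)
    (le_refl N) hb (fun ω => (F.sbx σ N N N a s t ω, (F.sbx σ r' U' N a s t ω, Θ ω)))
    (fun _ _ _ _ e => (Prod.ext_iff.mp e).1)
  have e : (((N : ℝ) - r) + ((N : ℝ) - U)) * Real.log 2 =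
    (((r' : ℝ) - r) + ((U' : ℝ) - U)) * Real.log 2 +
      (((N : ℝ) - r') + ((N : ℝ) - U') + ((N : ℝ) - N)) * Real.log 2 := by ring
  linarith

/-- Exact block of a path in one frame. -/
theorem vdf_path (hp : IsLaw p) {r U N r' U' : ℕ} {B : ℝ} (hB : 1 ≤ B)
    (h1 : r ≤ r') (h2 : U ≤ U') (h3 : r' ≤ N) (h4 : U' ≤ N)
    (hb : ∀ ω, 0 < p ω → |a ω| ≤ B ∧ |s ω| ≤ B ∧ |t ω| ≤ B) (Θ : F.Ω → τ) :
    F.vdf p σ r U N a s t Θ ≤ ((((r' : ℝ) - r) + ((U' : ℝ) - U)) * Real.log 2 -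
      CH p (F.sbx σ r' U' N a s t) (fun ω => (F.sbx σ r U N a s t ω, Θ ω))) +
      F.vdf p σ r' U' N a s t Θ + K1 B := by
  have h0 := hp.nonneg
  unfold Fam.vdf
  have k1 := CH_two h0 (F.X N) (F.sbx σ r' U' N a s t) (F.sbx σ r U N a s t) Θ
    (fun _ _ _ _ e => sbx_lift h1 h2 le_rfl e)
  have k2 := CH_sbx_X (σ := σ) (a := a) (s := s) (t := t) hp hB h3 h4 (le_refl N) hb
    (fun ω => (F.X N ω, (F.sbx σ r U N a s t ω, Θ ω))) (fun _ _ _ _ e => (Prod.ext_iff.mp e).1)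
    (fd_sbx (σ := σ) (r := r) (U := U) (P := N) _ fun _ _ _ _ e =>
      (Prod.ext_iff.mp (Prod.ext_iff.mp e).2).1)
  have e : (((N : ℝ) - r) + ((N : ℝ) - U)) * Real.log 2 =
    (((r' : ℝ) - r) + ((U' : ℝ) - U)) * Real.log 2 +
      (((N : ℝ) - r') + ((N : ℝ) - U')) * Real.log 2 := by ring
  linarith

/-- **Two-point rule.** The rows of the second coordinate are full by the first box, the rows of
the first coordinate are full by the second box. -/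
theorem vdf_two (hp : IsLaw p) (hσ : Function.Bijective σ) {r U N r₂ U₂ r₁ U₁ : ℕ} {B : ℝ}
    (hB : 1 ≤ B) (hrN : r ≤ N) (hUN : U ≤ N) (h1 : r ≤ r₂) (h1' : r₂ ≤ N) (h2 : U₂ ≤ U)
    (h3 : r₁ ≤ r) (h4 : U₁ ≤ N)
    (hb : ∀ ω, 0 < p ω → |a ω| ≤ B ∧ |s ω| ≤ B ∧ |t ω| ≤ B) (Θ : F.Ω → τ) :
    F.vdf p σ r U N a s t Θ ≤ F.vdf p σ r₂ U₂ N a s t Θ + F.vdf p σ r₁ U₁ N a s t Θ +
      (K1 B + K2 B) := by
  have h0 := hp.nonneg
  have k1 := vdf_path (σ := σ) (a := a) (s := s) (t := t) hp hB (le_refl r) hUN hrN (le_refl N)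
    hb Θ
  have k2 := vdf_mono (σ := σ) (a := a) (s := s) (t := t) (N := N) hp h3 h4 Θ
  have k3 := vdf_mono (σ := σ) (a := a) (s := s) (t := t) (N := N) hp (le_refl r₂) h2 Θ
  have k4 := rows_full (σ := σ) (a := a) (s := s) (t := t) (r := r₂) (U := U) (r' := r₂)
    (U' := N) hp hσ hB h1' (le_refl N) hb Θ
  have k5 : CH p (F.sbx σ r₂ N N a s t) (fun ω => (F.sbx σ r₂ U N a s t ω, Θ ω)) ≤
      CH p (F.sbx σ r N N a s t) (fun ω => (F.sbx σ r U N a s t ω, Θ ω)) := by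
    have d1 : CH p (F.sbx σ r₂ N N a s t) (fun ω => (F.sbx σ r₂ U N a s t ω, Θ ω)) ≤
        CH p (F.sbx σ r N N a s t) (fun ω => (F.sbx σ r₂ U N a s t ω, Θ ω)) := by
      refine CH_mono_left h0 ?_
      intro ω ω' _ _ e
      have e1 := Prod.ext_iff.mp e
      have e2 := (sbx_ext).1 e1.1
      have e3 := (sbx_ext).1 (Prod.ext_iff.mp e1.2).1
      rw [sbx_ext]
      exact ⟨e2.1, e3.2.1, e2.2.2.1, e2.2.2.2⟩
    have d2 : CH p (F.sbx σ r N N a s t) (fun ω => (F.sbx σ r₂ U N a s t ω, Θ ω)) ≤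
        CH p (F.sbx σ r N N a s t) (fun ω => (F.sbx σ r U N a s t ω, Θ ω)) :=
      CH_mono_cond h0 fun ω ω' _ _ e => Prod.ext (sbx_lift h1 le_rfl le_rfl (Prod.ext_iff.mp e).1)
        (Prod.ext_iff.mp e).2
    exact d1.trans d2
  have e1 : (((r : ℝ) - r) + ((N : ℝ) - U)) * Real.log 2 =
    (((r₂ : ℝ) - r₂) + ((N : ℝ) - U)) * Real.log 2 := by ring
  linarith

/-- The deficit is nondecreasing in `N`. -/
theorem vdf_N (hp : IsLaw p) (hσ : Function.Bijective σ) {r U N N' : ℕ} {B : ℝ} (hB : 1 ≤ B)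
    (hN : N ≤ N') (hrN : r ≤ N) (hUN : U ≤ N)
    (hb : ∀ ω, 0 < p ω → |a ω| ≤ B ∧ |s ω| ≤ B ∧ |t ω| ≤ B) (Θ : F.Ω → τ) :
    F.vdf p σ r U N a s t Θ ≤ F.vdf p σ r U N' a s t Θ + (2 * K1 B + K2 B) := by
  have h0 := hp.nonneg
  unfold Fam.vdf
  -- the finer positions given the box
  have k1 := CH_two h0 (F.X N') (F.sbx σ r U N' a s t) (F.sbx σ r U N a s t) Θ
    (fun _ _ _ _ e => sbx_lift le_rfl le_rfl hN e)
  have k2 := CH_sbx_X (σ := σ) (a := a) (s := s) (t := t) hp hB (hrN.trans hN) (hUN.trans hN)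
    (le_refl N') hb (fun ω => (F.X N' ω, (F.sbx σ r U N a s t ω, Θ ω)))
    (fun _ _ _ _ e => (Prod.ext_iff.mp e).1)
    (fd_sbx (σ := σ) (r := r) (U := U) (P := N) _ fun _ _ _ _ e =>
      (Prod.ext_iff.mp (Prod.ext_iff.mp e).2).1)
  have k3 := CH_le_add h0 (F.X N') (F.X N) (fun ω => (F.sbx σ r U N a s t ω, Θ ω))
  have k4 := CH_le_add h0 (F.X N') (F.sbx σ r U N' a s t)
    (fun ω => (F.X N ω, (F.sbx σ r U N a s t ω, Θ ω)))
  have k5 : CH p (F.sbx σ r U N' a s t) (fun ω => (F.X N ω, (F.sbx σ r U N a s t ω, Θ ω))) ≤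
      CH p (F.sbx σ r U N' a s t) (fun ω => (F.sbx σ r U N a s t ω, Θ ω)) :=
    CH_mono_cond h0 fun _ _ _ _ e => (Prod.ext_iff.mp e).2
  -- the rest
  obtain ⟨W, hW⟩ : ∃ W : F.Ω → _, W = fun ω => (F.sbx σ r U N' a s t ω, (F.X N ω,
    (F.sbx σ r U N a s t ω, Θ ω))) := ⟨_, rfl⟩
  have k6 : CH p (F.X N') W ≤ (((N' : ℝ) - N) + ((N' : ℝ) - N)) * Real.log 2 + K1 B + K2 B := by
    have d1 := CH_le_add h0 (F.X N') (F.sbx σ N' N' N' a s t) W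
    have d2 := CH_X_sbx (σ := σ) (a := a) (s := s) (t := t) hp hσ hB (le_refl N') (le_refl N')
      (le_refl N') hb (fun ω => (F.sbx σ N' N' N' a s t ω, W ω))
      (fun _ _ _ _ e => (Prod.ext_iff.mp e).1)
    have d3 := CH_le_add h0 (F.sbx σ N' N' N' a s t) (F.sbx σ N N N a s t) W
    have d4 := CH_sbx_X (σ := σ) (a := a) (s := s) (t := t) hp hB (le_refl N) (le_refl N)
      (le_refl N) hb W (fun _ _ _ _ e => by
        rw [hW] at e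
        exact (Prod.ext_iff.mp (Prod.ext_iff.mp e).2).1)
      (fd_sbx (σ := σ) (r := r) (U := U) (P := N') _ fun _ _ _ _ e => by
        rw [hW] at e
        exact (Prod.ext_iff.mp e).1)
    have d5 : CH p (F.sbx σ N' N' N' a s t) (fun ω => (F.sbx σ N N N a s t ω, W ω)) ≤
        (((N' : ℝ) - N) + ((N' : ℝ) - N) + ((N' : ℝ) - N')) * Real.log 2 := by
      refine CH_sbx_rate (σ := σ) (a := a) (s := s) (t := t) (r := N) (U := N) (P := N') hp hN hN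
        (le_refl N') _ ?_
      intro ω ω' _ _ e
      have e1 := Prod.ext_iff.mp e
      have e2 := (sbx_ext).1 e1.1
      have e3 : F.sbx σ r U N' a s t ω = F.sbx σ r U N' a s t ω' := by
        have := e1.2
        rw [hW] at this
        exact (Prod.ext_iff.mp this).1
      have e4 := (sbx_ext).1 e3
      rw [sbx_ext]
      exact ⟨e2.1, e2.2.1, e2.2.2.1, e4.2.2.2⟩
    have e : (((N' : ℝ) - N) + ((N' : ℝ) - N) + ((N' : ℝ) - N')) * Real.log 2 =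
      (((N' : ℝ) - N) + ((N' : ℝ) - N)) * Real.log 2 := by ring
    linarith
  rw [hW] at k6
  have k7 : CH p (F.X N) (fun ω => (F.sbx σ r U N a s t ω, Θ ω)) ≥
      CH p (F.X N') (fun ω => (F.sbx σ r U N a s t ω, Θ ω)) -
        CH p (F.X N') (fun ω => (F.X N ω, (F.sbx σ r U N a s t ω, Θ ω))) := by linarith
  have e : (((N' : ℝ) - r) + ((N' : ℝ) - U)) * Real.log 2 =
    (((N : ℝ) - r) + ((N : ℝ) - U)) * Real.log 2 +
      (((N' : ℝ) - N) + ((N' : ℝ) - N)) * Real.log 2 := by ring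
  linarith

/-! ### The entropy of a block of rows -/

/-- **(H5)** The entropy of a block of rows beyond a static box, from the entropy of the positions
and the deficit of the finer box. -/
theorem block_le (hp : IsLaw p) (hσ : Function.Bijective σ) {r U P r' U' P' : ℕ} {B : ℝ}
    (hB : 1 ≤ B) (hr : r ≤ r') (hU : U ≤ U') (hP : P ≤ P') (h1 : r ≤ P) (h2 : U ≤ P)
    (h3 : r' ≤ P') (h4 : U' ≤ P')
    (hb : ∀ ω, 0 < p ω → |a ω| ≤ B ∧ |s ω| ≤ B ∧ |t ω| ≤ B) (Θ : F.Ω → τ) :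
    CH p (F.sbx σ r' U' P' a s t) (fun ω => (F.sbx σ r U P a s t ω, Θ ω)) ≤
      CH p (F.X P') (fun ω => (F.X P ω, Θ ω)) +
        (((r' : ℝ) - r) + ((U' : ℝ) - U) - 2 * ((P' : ℝ) - P)) * Real.log 2 +
        F.vdf p σ r' U' P' a s t Θ + (K1 B + K2 B) := by
  have h0 := hp.nonneg
  unfold Fam.vdf
  have k1 := CH_two h0 (F.X P') (F.sbx σ r' U' P' a s t) (F.sbx σ r U P a s t) Θ
    (fun _ _ _ _ e => sbx_lift hr hU hP e)
  have k2 := CH_sbx_X (σ := σ) (a := a) (s := s) (t := t) hp hB h3 h4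
    (le_refl P') hb (fun ω => (F.X P' ω, (F.sbx σ r U P a s t ω, Θ ω)))
    (fun _ _ _ _ e => (Prod.ext_iff.mp e).1)
    (fd_sbx (σ := σ) (r := r) (U := U) (P := P) _ fun _ _ _ _ e =>
      (Prod.ext_iff.mp (Prod.ext_iff.mp e).2).1)
  have k3 := CH_le_add h0 (F.X P') (F.X P) (fun ω => (F.sbx σ r U P a s t ω, Θ ω))
  have k4 : CH p (F.X P') (fun ω => (F.X P ω, (F.sbx σ r U P a s t ω, Θ ω))) ≤
      CH p (F.X P') (fun ω => (F.X P ω, Θ ω)) :=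
    CH_mono_cond h0 fun _ _ _ _ e => Prod.ext (Prod.ext_iff.mp e).1
      (Prod.ext_iff.mp (Prod.ext_iff.mp e).2).2
  have k5 := CH_le_add h0 (F.X P) (F.sbx σ P P P a s t) (fun ω => (F.sbx σ r U P a s t ω, Θ ω))
  have k6 := CH_sbx_rate (σ := σ) (a := a) (s := s) (t := t) hp h1 h2 (le_refl P)
    (fun ω => (F.sbx σ r U P a s t ω, Θ ω)) (fun _ _ _ _ e => (Prod.ext_iff.mp e).1)
  have k7 := CH_X_sbx (σ := σ) (a := a) (s := s) (t := t) hp hσ hB (le_refl P) (le_refl P)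
    (le_refl P) hb (fun ω => (F.sbx σ P P P a s t ω, (F.sbx σ r U P a s t ω, Θ ω)))
    (fun _ _ _ _ e => (Prod.ext_iff.mp e).1)
  have e : (((r' : ℝ) - r) + ((U' : ℝ) - U) - 2 * ((P' : ℝ) - P)) * Real.log 2 =
    (((P : ℝ) - r) + ((P : ℝ) - U) + ((P : ℝ) - P)) * Real.log 2 -
      (((P' : ℝ) - r') + ((P' : ℝ) - U')) * Real.log 2 := by ring
  linarith

/-! ### Fine frames in the condition (Principle M) -/

/-- A further variable `κ` in the condition, which is nearly independent of the rows from the box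
`(r, U, N)` to the box `(r', U', N)`. -/
theorem vdf_add (hp : IsLaw p) (hσ : Function.Bijective σ) {r U N r' U' : ℕ} {B : ℝ}
    (hB : 1 ≤ B) (h1 : r ≤ r') (h2 : U ≤ U') (h3 : r' ≤ N) (h4 : U' ≤ N)
    (hb : ∀ ω, 0 < p ω → |a ω| ≤ B ∧ |s ω| ≤ B ∧ |t ω| ≤ B) (Θ : F.Ω → τ) (κ : F.Ω → τ') :
    F.vdf p σ r U N a s t (fun ω => (κ ω, Θ ω)) ≤ F.vdf p σ r U N a s t Θ +
      F.vdf p σ r' U' N a s t (fun ω => (κ ω, Θ ω)) +
      (CH p κ (fun ω => (F.sbx σ r U N a s t ω, Θ ω)) -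
        CH p κ (fun ω => (F.sbx σ r' U' N a s t ω, Θ ω))) + (K1 B + K2 B) := by
  have h0 := hp.nonneg
  have k1 := vdf_path (σ := σ) (a := a) (s := s) (t := t) hp hB h1 h2 h3 h4 hb
    (fun ω => (κ ω, Θ ω))
  have k2 := rows_full (σ := σ) (a := a) (s := s) (t := t) (r := r) (U := U) hp hσ hB h3 h4 hb Θ
  have k3 := CH_chain h0 (F.sbx σ r' U' N a s t) κ (fun ω => (F.sbx σ r U N a s t ω, Θ ω))
  have k4 := CH_chain h0 κ (F.sbx σ r' U' N a s t) (fun ω => (F.sbx σ r U N a s t ω, Θ ω))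
  have k5 : CH p (fun ω => (F.sbx σ r' U' N a s t ω, κ ω))
      (fun ω => (F.sbx σ r U N a s t ω, Θ ω)) =
      CH p (fun ω => (κ ω, F.sbx σ r' U' N a s t ω))
      (fun ω => (F.sbx σ r U N a s t ω, Θ ω)) := by
    refine CH_congr h0 ?_ ?_ (fun _ _ _ _ e => e) (fun _ _ _ _ e => e)
    · intro ω ω' _ _ e
      have e1 := Prod.ext_iff.mp (Prod.ext_iff.mp e).1
      exact Prod.ext e1.2 e1.1
    · intro ω ω' _ _ e
      have e1 := Prod.ext_iff.mp (Prod.ext_iff.mp e).1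
      exact Prod.ext e1.2 e1.1
  have k6 : CH p κ (fun ω => (F.sbx σ r' U' N a s t ω, (F.sbx σ r U N a s t ω, Θ ω))) =
      CH p κ (fun ω => (F.sbx σ r' U' N a s t ω, Θ ω)) := by
    refine CH_congr h0 (fun _ _ _ _ e => (Prod.ext_iff.mp e).1)
      (fun _ _ _ _ e => (Prod.ext_iff.mp e).1) ?_ ?_
    · intro ω ω' _ _ e
      have e1 := Prod.ext_iff.mp e
      exact Prod.ext e1.1 (Prod.ext_iff.mp e1.2).2
    · intro ω ω' _ _ e
      have e1 := Prod.ext_iff.mp e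
      exact Prod.ext e1.1 (Prod.ext (sbx_lift h1 h2 le_rfl e1.1) e1.2)
  have k7 := CH_swap h0 (F.sbx σ r' U' N a s t) κ (F.sbx σ r U N a s t) Θ
  linarith

/-- **Principle M** for a nested chain of boxes: the sum of the losses. -/
theorem prinM (hp : IsLaw p) {n : ℕ} (r U N r' U' : ℕ → ℕ) (Θ : F.Ω → τ) (κ : F.Ω → τ')
    (h1 : ∀ j < n, r' j ≤ r (j + 1)) (h2 : ∀ j < n, U' j ≤ U (j + 1))
    (h3 : ∀ j < n, N j ≤ N (j + 1)) :
    ∑ j ∈ range n, (CH p κ (fun ω => (F.sbx σ (r j) (U j) (N j) a s t ω, Θ ω)) -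
        CH p κ (fun ω => (F.sbx σ (r' j) (U' j) (N j) a s t ω, Θ ω))) ≤
      CH p κ (fun ω => (F.sbx σ (r 0) (U 0) (N 0) a s t ω, Θ ω)) := by
  have h0 := hp.nonneg
  have key : ∀ m ≤ n, ∑ j ∈ range m, (CH p κ (fun ω => (F.sbx σ (r j) (U j) (N j) a s t ω, Θ ω)) -
        CH p κ (fun ω => (F.sbx σ (r' j) (U' j) (N j) a s t ω, Θ ω))) ≤
      CH p κ (fun ω => (F.sbx σ (r 0) (U 0) (N 0) a s t ω, Θ ω)) -
        CH p κ (fun ω => (F.sbx σ (r m) (U m) (N m) a s t ω, Θ ω)) := by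
    intro m
    induction m with
    | zero => intro _; simp
    | succ m ih =>
      intro hm
      rw [Finset.sum_range_succ]
      have k1 := ih (by omega)
      have k2 : CH p κ (fun ω => (F.sbx σ (r (m + 1)) (U (m + 1)) (N (m + 1)) a s t ω, Θ ω)) ≤
          CH p κ (fun ω => (F.sbx σ (r' m) (U' m) (N m) a s t ω, Θ ω)) :=
        CH_mono_cond h0 fun _ _ _ _ e => Prod.ext (sbx_lift (h1 m (by omega)) (h2 m (by omega))
          (h3 m (by omega)) (Prod.ext_iff.mp e).1) (Prod.ext_iff.mp e).2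
      linarith
  have k := key n le_rfl
  have k' := CH_nonneg h0 κ (fun ω => (F.sbx σ (r n) (U n) (N n) a s t ω, Θ ω))
  linarith

end sbx

end Vd

end Pool.KA
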