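import Pool.Agent.H23.S6E.Ld1

/-!
# LEMMA D: one window
-/

set_option autoImplicit false

namespace Pool.S6C

open Finset Real
open Pool.Agent.H49.Ent Pool.Agent.H32.Dense Pool.STK Pool.KA Pool.KSAT Pool.K2S Pool.PB Pool.KS6
  Pool.Sel51 Pool.KA.Vd

section cls

variable {S : PCl 3} {a R h₁ : ℝ} {i₀ : Fin 3} {c s₂ : ℝ} {r : ℝ → ℝ} {D : Set ℝ} {σ : ℝ → Row}
  {act : ℚ → ℝ} {K : Set ℝ} {W : ℝ → ℝ} {v₁ t : ℚ} {e₁ Q₀ P g v₀ v ρ a₀ α : ℝ}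

theorem Cs.rot_nn (hC : Cs S a R h₁ i₀ c s₂ r D σ) {w : ℚ} (h0 : 0 ≤ w) (h1 : w ≤ 1) :
    0 ≤ (σ 1).rot w :=
  num_nonneg hC.ne ((hC.row 1 one_pos le_rfl hC.D1).rot w h0 h1)

theorem Cs.th_nn (hC : Cs S a R h₁ i₀ c s₂ r D σ) {w : ℚ} (h0 : 0 ≤ w) (h1 : w ≤ 1) :
    0 ≤ (σ 1).th w ∧ (σ 1).th w ≤ 1 :=
  ⟨num_nonneg hC.ne ((hC.row 1 one_pos le_rfl hC.D1).th w h0 h1),
    num_le_cap hC.ne zero_le_one ((hC.row 1 one_pos le_rfl hC.D1).th w h0 h1)⟩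

/-- The thickness is nondecreasing in the window. -/
theorem Cs.th_mn (hC : Cs S a R h₁ i₀ c s₂ r D σ) {w w' : ℚ} (h0 : 0 ≤ w) (h : w ≤ w')
    (h1 : w' ≤ 1) : (σ 1).th w ≤ (σ 1).th w' := by
  have h1' : (w' : ℝ) ≤ 1 := by exact_mod_cast h1
  have h' : (w : ℝ) ≤ w' := by exact_mod_cast h
  have k := (ths_thm hC one_pos le_rfl hC.D1 h0 h h1').1
  refine le_trans ?_ k
  refine le_min (hC.th_nn h0 (h.trans h1)).2 ?_
  linarith only [h']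

/-- The directions are nondecreasing in the window. -/
theorem Cs.rot_mn (hC : Cs S a R h₁ i₀ c s₂ r D σ) {w w' : ℚ} (h0 : 0 ≤ w) (h : w ≤ w')
    (h1 : w' ≤ 1) : (σ 1).rot w ≤ (σ 1).rot w' :=
  rw_thm S a R h₁ i₀ c s₂ r D σ hC 1 one_pos le_rfl hC.D1 w w' h0 h h1

/-- The radius around the window in which everything is nonnegative. -/
theorem Loc.radz (hL : Loc S i₀ c s₂ r D σ act K W v₁ t e₁ Q₀ P g v₀ v ρ a₀ α) :
    ∃ X₁ : ℝ, 0 < X₁ ∧ ∀ w : ℚ, |(w : ℝ) - W g| ≤ X₁ → 0 ≤ w ∧ w ≤ 1 ∧ X₁ ≤ P - g := by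
  have h1 := hL.w0
  have h2 := hL.gP
  have h3 := hL.adm.ab g hL.thk
  have h4 : (v₁ : ℝ) < 1 := by exact_mod_cast hL.adm.v1
  refine ⟨min (W g) (min (v₁ - W g) (P - g)), lt_min h1 (lt_min (by linarith only [h3]) (by linarith only [h2])),
    fun w hw => ?_⟩
  obtain ⟨a1, a2⟩ := abs_le.1 hw
  have b1 := min_le_left (W g) (min ((v₁ : ℝ) - W g) (P - g))
  have b2 := (min_le_right (W g) (min ((v₁ : ℝ) - W g) (P - g))).trans (min_le_left _ _)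
  have b3 := (min_le_right (W g) (min ((v₁ : ℝ) - W g) (P - g))).trans (min_le_right _ _)
  have c1 : (0 : ℝ) ≤ w := by linarith only [a1, b1]
  have c2 : (w : ℝ) ≤ 1 := by linarith
  exact ⟨by exact_mod_cast c1, by exact_mod_cast c2, b3⟩

/-- **Natural boxes in near frames.** -/
theorem nat_fr (hN : NATStmt) (hC : Cs S a R h₁ i₀ c s₂ r D σ)
    (hL : Loc S i₀ c s₂ r D σ act K W v₁ t e₁ Q₀ P g v₀ v ρ a₀ α) {ε : ℝ} (hε : 0 < ε) :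
    ∃ ε₀ X₀ : ℝ, 0 < ε₀ ∧ 0 < X₀ ∧ ∀ X : ℝ, 0 < X → X ≤ X₀ → ∀ w : ℚ, |(w : ℝ) - W g| ≤ X →
    Clp S (fun J F A => ∀ sg : Fin 3 → Fin 3, Function.Bijective sg → sg 0 = i₀ →
      ∀ z : F.Ω → Pln, NL F A sg ⌊(w : ℝ) * J⌋₊ ⌊((σ 1).rot w - ε₀ * X) * J⌋₊
        ⌊((σ 1).th w - ε₀ * X) * J⌋₊ z →
      ∀ (τ : Type) (κ : F.Ω → τ), SL F A ⌊(w : ℝ) * J⌋₊ κ →
      ∀ (a s t : F.Ω → ℝ) (E : ℝ), (∀ ω ω', A ω → A ω' → κ ω = κ ω' → z ω = z ω' →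
        a ω = a ω' ∧ s ω = s ω' ∧ t ω = t ω') →
      1 ≤ E → Real.log E ≤ ε₀ * X * J → Fcl F A w ((w : ℝ) + (σ 1).rot w) ((σ 1).th w) E z a s t →
      ∀ (l U N : ℕ) (q : ℝ), |q - (P - g)| ≤ X → ((w : ℝ) + q) * J ≤ l →
        ((w : ℝ) + (σ 1).rot w + q) * J ≤ U → (N : ℝ) ≤ ((σ 1).th w + q) * J →
        l ≤ N → U ≤ N →
        F.vdf (Pool.Agent.H49.Ent.cond F.p A True) sg l U N a s t
          (fun ω => (κ ω, (z ω, F.W ω))) ≤ ε * X * J) := by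
  obtain ⟨X₁, hX₁, hr⟩ := hL.radz
  obtain ⟨ε₁, X₀, hε₁, hX₀, h⟩ := nat_unif hN hC hL (ε := ε / 2) (by positivity)
  refine ⟨min ε₁ (ε / 24), min X₀ X₁, lt_min hε₁ (by positivity), lt_min hX₀ hX₁,
    fun X hX hXX w hw => ?_⟩
  have h' := h X hX (hXX.trans (min_le_left _ _))
  obtain ⟨η, hη⟩ : ∃ η : ℝ, η = min ε₁ (ε / 24) * X := ⟨_, rfl⟩
  rw [← hη]
  have hη1 : η ≤ ε₁ * X := by
    rw [hη]
    exact mul_le_mul_of_nonneg_right (min_le_left _ _) hX.le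
  have hη2 : η ≤ ε * X / 24 := by
    rw [hη]
    have := mul_le_mul_of_nonneg_right (min_le_right ε₁ (ε / 24)) hX.le
    linarith only [this]
  obtain ⟨hw0, hw1, hPg⟩ := hr w (hw.trans (hXX.trans (min_le_right _ _)))
  have hX1 := hXX.trans (min_le_right _ _)
  have hrot := hC.rot_nn hw0 hw1
  obtain ⟨hth, -⟩ := hC.th_nn hw0 hw1
  have hw0' : (0 : ℝ) ≤ w := by exact_mod_cast hw0
  obtain ⟨J₂, hJ₂⟩ := exists_nat_ge ((3 * Real.log 51 + 3 * Real.log 27) / (ε / 8 * X) + 1)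
  have l51 : 0 < Real.log 51 := Real.log_pos (by norm_num)
  have l27 : 0 < Real.log 27 := Real.log_pos (by norm_num)
  refine Clp.mono (J₂ := J₂) ((h' w hw).and hC.evlaw) ?_
  rintro J hJ F A ⟨h1, hlaw⟩ sg hsg h0 z hz τ κ hκ a s t E hdet hE hlE hcl l U N q hq e1 e2 e3 e4 e5
  have hJ' : (3 * Real.log 51 + 3 * Real.log 27) / (ε / 8 * X) + 1 ≤ (J : ℝ) :=
    hJ₂.trans (by exact_mod_cast hJ)
  have g1 : 0 ≤ (3 * Real.log 51 + 3 * Real.log 27) / (ε / 8 * X) := by positivity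
  have hJ0 : (0 : ℝ) < J := by linarith only [hJ', g1]
  have hJc : 3 * Real.log 51 + 3 * Real.log 27 ≤ ε / 8 * X * J := by
    have : (3 * Real.log 51 + 3 * Real.log 27) / (ε / 8 * X) ≤ J := by linarith only [hJ']
    rw [div_le_iff₀ (by positivity)] at this
    linarith only [this]
  obtain ⟨q1, q2⟩ := abs_le.1 hq
  have hq0 : 0 ≤ q := by linarith only [hPg, hX1, q1]
  have hz' : NL F A sg ⌊(w : ℝ) * J⌋₊ ⌊((σ 1).rot w - ε₁ * X) * J⌋₊ ⌊((σ 1).th w - ε₁ * X) * J⌋₊ z :=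
    hz.mono (Nat.floor_le_floor (by nlinarith only [hη1])) (Nat.floor_le_floor (by nlinarith only [hη1]))
  -- the natural levels
  have p1 : 0 ≤ ((w : ℝ) + q) * J := by positivity
  have p2 : 0 ≤ ((w : ℝ) + (σ 1).rot w + q) * J := by positivity
  have p3 : 0 ≤ (w : ℝ) * J := by positivity
  have p4 : 0 ≤ ((w : ℝ) + (σ 1).rot w) * J := by positivity
  have p5 : 0 ≤ (σ 1).th w * J := by positivity
  have a1 := Nat.floor_le p1
  have a2 := Nat.floor_le p2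
  have a3 := Nat.floor_le p3
  have a4 := Nat.floor_le p4
  have a5 := Nat.floor_le p5
  have b1 := Nat.lt_floor_add_one (((w : ℝ) + q) * J)
  have b2 := Nat.lt_floor_add_one (((w : ℝ) + (σ 1).rot w + q) * J)
  have b4 := Nat.lt_floor_add_one (((w : ℝ) + (σ 1).rot w) * J)
  have b5 := Nat.lt_floor_add_one ((σ 1).th w * J)
  obtain ⟨l₁, hl₁⟩ : ∃ l₁ : ℕ, l₁ = ⌊((w : ℝ) + q) * J⌋₊ := ⟨_, rfl⟩
  obtain ⟨U₁, hU₁⟩ : ∃ U₁ : ℕ, U₁ = ⌊((w : ℝ) + (σ 1).rot w + q) * J⌋₊ := ⟨_, rfl⟩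
  rw [← hl₁] at a1 b1
  rw [← hU₁] at a2 b2
  have c1 : l₁ ≤ l := by rw [hl₁]; exact Nat.floor_le_of_le e1
  have c2 : U₁ ≤ U := by rw [hU₁]; exact Nat.floor_le_of_le e2
  have m1 := vdf_mono (σ := sg) (a := a) (s := s) (t := t) (N := N) hlaw c1 c2
    (fun ω => (κ ω, (z ω, F.W ω)))
  have hb : ∀ ω, 0 < Pool.Agent.H49.Ent.cond F.p A True ω →
      |fra z ω| ≤ 8 ∧ |frs z ω| ≤ 8 ∧ |frt z ω| ≤ 8 := fun ω hω => hz.bd (ldm_mem hω)
  have m2 := vdf_chg (σ := sg) (a := a) (s := s) (t := t) (a' := fra z) (s' := frs z)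
    (t' := frt z) (r := l₁) (U := U₁) (N := N) (B := 8) (D := 4 * E) hlaw (by norm_num)
    (by linarith only [hE]) (c1.trans e4) (c2.trans e5) hb (fun ω hω => by
      refine fnr_lvl (by linarith only [hE]) (hcl ω (ldm_mem hω)) ?_ ?_ ?_
      · have : ((⌊(w : ℝ) * J⌋₊ + U₁ : ℕ) : ℝ) ≤
            ((l₁ + ⌊((w : ℝ) + (σ 1).rot w) * J⌋₊ + 2 : ℕ) : ℝ) := by
          push_cast
          linarith only [a3, b4, b1, a2]
        exact_mod_cast this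
      · have : ((⌊((w : ℝ) + (σ 1).rot w) * J⌋₊ + N : ℕ) : ℝ) ≤
            ((U₁ + ⌊(σ 1).th w * J⌋₊ + 2 : ℕ) : ℝ) := by
          push_cast
          linarith only [e3, a4, b5, b2]
        exact_mod_cast this
      · have : ((⌊(w : ℝ) * J⌋₊ + N : ℕ) : ℝ) ≤
            ((l₁ + ⌊(σ 1).th w * J⌋₊ + 2 : ℕ) : ℝ) := by
          push_cast
          linarith only [e3, a3, b5, b1]
        exact_mod_cast this) (fun ω => (κ ω, (z ω, F.W ω))) (by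
      intro ω ω' hω hω' e
      have x1 := Prod.ext_iff.mp e
      have x2 := Prod.ext_iff.mp x1.2
      obtain ⟨y1, y2, y3⟩ := hdet ω ω' (ldm_mem hω) (ldm_mem hω') x1.1 x2.1
      rw [Prod.ext_iff, Prod.ext_iff]
      exact ⟨y1, y2, y3⟩) (by
      intro ω ω' hω hω' e
      have x1 := Prod.ext_iff.mp e
      have x2 : z ω = z ω' := (Prod.ext_iff.mp x1.2).1
      simp only [fra, frs, frt]
      rw [x2])
  have m3 := h1 sg hsg h0 z hz' τ κ hκ l₁ U₁ N q hq (by linarith only [b1]) (by linarith only [b2]) (by linarith only [e3])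
    (c1.trans e4) (c2.trans e5)
  have n1 : Real.log (6 * 8 + 3) = Real.log 51 := by norm_num
  have n2 : Real.log (6 * (4 * E) + 3) ≤ Real.log 27 + η * J := by
    calc Real.log (6 * (4 * E) + 3) ≤ Real.log (27 * E) :=
          Real.log_le_log (by linarith only [hE]) (by linarith only [hE])
      _ = Real.log 27 + Real.log E := Real.log_mul (by norm_num) (by linarith only [hE])
      _ ≤ _ := by linarith only [hlE]
  rw [n1] at m2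
  push_cast at m2
  have n3 : 3 * (η * J) ≤ ε / 8 * X * J := by
    have := mul_le_mul_of_nonneg_right hη2 hJ0.le
    nlinarith only [this]
  have hXJ : 0 ≤ ε * X * J := by positivity
  linarith only [l51, l27, hJc, m1, m2, m3, n2, n3]

theorem ldOne_of (hN : NATStmt) : LDOneStmt := by
  intro S a R h₁ i₀ c s₂ r D σ hC act K W v₁ t e₁ Q₀ P g v₀ v ρ a₀ α hL ε hε
  obtain ⟨ε₀, X₀, hε₀, hX₀, h⟩ := nat_fr hN hC hL hε
  refine ⟨ε₀, X₀, hε₀, hX₀, fun X hX hXX w hw => ?_⟩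
  refine Clp.mono (J₂ := 0) ((h X hX hXX w hw).and hC.evlaw) ?_
  rintro J - F A ⟨h1, hlaw⟩ sg hsg h0 z hz a s t E hdet _ hE hlE hcl l U N q hq e1 e2 e3 e4 e5
  have k1 := h1 sg hsg h0 z hz Unit (fun _ => ()) ⟨fun _ _ _ _ _ => rfl, fun _ _ _ _ _ => rfl⟩
    a s t E (fun ω ω' hω hω' _ e => hdet ω ω' hω hω' e) hE hlE hcl l U N q hq e1 e2 e3 e4 e5
  refine (vdf_cond (σ := sg) (a := a) (s := s) (t := t) hlaw F.W
    (fun ω => ((), (z ω, F.W ω))) ?_).trans k1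
  intro ω ω' _ _ e
  exact (Prod.ext_iff.mp (Prod.ext_iff.mp e).2).2

end cls

end Pool.S6C
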