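import Pool.Agent.H23.S6E.Vdf
import Pool.Agent.H2.UST.Ev

/-!
# Deficits of the rows of the plank directions: events, Lipschitz bounds, finer frames

The deficit on an event; the deficit is Lipschitz in the levels; the frame of a finer window in the
condition; the entropy of a block of rows beyond a static box, on events.
-/

set_option autoImplicit false

namespace Pool.KA

open Finset Real
open Pool.Agent.H49.Ent Pool.Agent.H32.Dense Pool.STK Pool.K2S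

variable {J : ℕ}

namespace Vd

section sbx

variable {F : Fam 3 J} {p : F.Ω → ℝ} {σ : Fin 3 → Fin 3} {a s t a' s' t' : F.Ω → ℝ}
  {S τ τ' : Type}

/-! ### Bounds -/

theorem K1_nonneg {B : ℝ} (hB : 1 ≤ B) : 0 ≤ K1 B := by
  unfold K1
  have : 0 ≤ Real.log (6 * B + 3) := Real.log_nonneg (by linarith)
  positivity

theorem K2_nonneg {B : ℝ} (hB : 1 ≤ B) : 0 ≤ K2 B := by
  unfold K2
  have : 0 ≤ Real.log (2 * (1 + 2 * B + B * B) + 3) := Real.log_nonneg (by nlinarith)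
  positivity

/-- The rows of the plank directions have at most their number of digits. -/
theorem CH_X_le (hp : IsLaw p) (hσ : Function.Bijective σ) {r U N : ℕ} {B : ℝ} (hB : 1 ≤ B)
    (hr : r ≤ N) (hU : U ≤ N) (hb : ∀ ω, 0 < p ω → |a ω| ≤ B ∧ |s ω| ≤ B ∧ |t ω| ≤ B)
    (Θ : F.Ω → τ) : CH p (F.X N) (fun ω => (F.sbx σ r U N a s t ω, Θ ω)) ≤
      (((N : ℝ) - r) + ((N : ℝ) - U)) * Real.log 2 + K2 B := by
  have h0 := hp.nonneg
  have k1 := CH_two_le h0 (F.X N) (F.sbx σ N N N a s t) (F.sbx σ r U N a s t) Θ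
  have k2 := CH_sbx_rate (σ := σ) (a := a) (s := s) (t := t) hp hr hU (le_refl N)
    (fun ω => (F.sbx σ r U N a s t ω, Θ ω)) (fun _ _ _ _ e => (Prod.ext_iff.mp e).1)
  have k3 := CH_X_sbx (σ := σ) (a := a) (s := s) (t := t) hp hσ hB (le_refl N) (le_refl N)
    (le_refl N) hb (fun ω => (F.sbx σ N N N a s t ω, Θ ω))
    (fun _ _ _ _ e => (Prod.ext_iff.mp e).1)
  have e : (((N : ℝ) - r) + ((N : ℝ) - U) + ((N : ℝ) - N)) * Real.log 2 =
    (((N : ℝ) - r) + ((N : ℝ) - U)) * Real.log 2 := by ring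
  linarith

theorem vdf_ge (hp : IsLaw p) (hσ : Function.Bijective σ) {r U N : ℕ} {B : ℝ} (hB : 1 ≤ B)
    (hr : r ≤ N) (hU : U ≤ N) (hb : ∀ ω, 0 < p ω → |a ω| ≤ B ∧ |s ω| ≤ B ∧ |t ω| ≤ B)
    (Θ : F.Ω → τ) : -K2 B ≤ F.vdf p σ r U N a s t Θ := by
  unfold Fam.vdf
  have := CH_X_le (σ := σ) (a := a) (s := s) (t := t) hp hσ hB hr hU hb Θ
  linarith

theorem vdf_le (hp : IsLaw p) {r U N : ℕ} (Θ : F.Ω → τ) :
    F.vdf p σ r U N a s t Θ ≤ (((N : ℝ) - r) + ((N : ℝ) - U)) * Real.log 2 := by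
  unfold Fam.vdf
  have := CH_nonneg hp.nonneg (F.X N) (fun ω => (F.sbx σ r U N a s t ω, Θ ω))
  linarith

/-! ### Lipschitz bounds -/

/-- The deficit is Lipschitz in the levels of the plank directions. -/
theorem vdf_lip (hp : IsLaw p) {r U N r' U' : ℕ} {B : ℝ} (hB : 1 ≤ B)
    (h1 : r ≤ r') (h2 : U ≤ U') (h3 : r' ≤ N) (h4 : U' ≤ N)
    (hb : ∀ ω, 0 < p ω → |a ω| ≤ B ∧ |s ω| ≤ B ∧ |t ω| ≤ B) (Θ : F.Ω → τ) :
    F.vdf p σ r U N a s t Θ ≤ F.vdf p σ r' U' N a s t Θ +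
      (((r' : ℝ) - r) + ((U' : ℝ) - U)) * Real.log 2 + K1 B := by
  have k1 := vdf_path (σ := σ) (a := a) (s := s) (t := t) hp hB h1 h2 h3 h4 hb Θ
  have k2 := CH_nonneg hp.nonneg (F.sbx σ r' U' N a s t)
    (fun ω => (F.sbx σ r U N a s t ω, Θ ω))
  linarith

/-- The deficit is Lipschitz in the level of the normal coordinate. -/
theorem vdf_lipN (hp : IsLaw p) {r U N N' : ℕ} (hN : N ≤ N') (Θ : F.Ω → τ) :
    F.vdf p σ r U N' a s t Θ ≤ F.vdf p σ r U N a s t Θ + 3 * ((N' : ℝ) - N) * Real.log 2 := by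
  have h0 := hp.nonneg
  unfold Fam.vdf
  have k1 := CH_le_add h0 (F.X N) (F.sbx σ r U N' a s t)
    (fun ω => (F.sbx σ r U N a s t ω, Θ ω))
  have k2 := CH_sbx_rate (σ := σ) (a := a) (s := s) (t := t) hp (le_refl r) (le_refl U) hN
    (fun ω => (F.sbx σ r U N a s t ω, Θ ω)) (fun _ _ _ _ e => (Prod.ext_iff.mp e).1)
  have k3 : CH p (F.X N) (fun ω => (F.sbx σ r U N' a s t ω,
      (F.sbx σ r U N a s t ω, Θ ω))) ≤ CH p (F.X N') (fun ω => (F.sbx σ r U N' a s t ω, Θ ω)) := by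
    have d1 : CH p (F.X N) (fun ω => (F.sbx σ r U N' a s t ω,
        (F.sbx σ r U N a s t ω, Θ ω))) ≤
        CH p (F.X N) (fun ω => (F.sbx σ r U N' a s t ω, Θ ω)) :=
      CH_mono_cond h0 fun ω ω' _ _ e => Prod.ext (Prod.ext_iff.mp e).1
        (Prod.ext_iff.mp (Prod.ext_iff.mp e).2).2
    refine d1.trans (CH_mono_left h0 ?_)
    intro ω ω' _ _ e
    have e1 := (Prod.ext_iff.mp e).1
    funext i
    exact fl_lift hN (congrFun e1 i)
  have e : (((r : ℝ) - r) + ((U : ℝ) - U) + ((N' : ℝ) - N)) * Real.log 2 =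
    ((N' : ℝ) - N) * Real.log 2 := by ring
  have e2 : (((N' : ℝ) - r) + ((N' : ℝ) - U)) * Real.log 2 =
    (((N : ℝ) - r) + ((N : ℝ) - U)) * Real.log 2 + 2 * ((N' : ℝ) - N) * Real.log 2 := by ring
  linarith

/-! ### Events -/

/-- **The deficit on an event.** -/
theorem vdf_event (hp : IsLaw p) (hσ : Function.Bijective σ) {r U N : ℕ} {B : ℝ} (hB : 1 ≤ B)
    (hr : r ≤ N) (hU : U ≤ N) (hb : ∀ ω, 0 < p ω → |a ω| ≤ B ∧ |s ω| ≤ B ∧ |t ω| ≤ B)
    (Θ : F.Ω → τ) (E : F.Ω → Prop) :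
    Pe p E * F.vdf (Pool.Agent.H49.Ent.cond p E True) σ r U N a s t Θ ≤
      F.vdf p σ r U N a s t Θ + (K2 B + Real.log 2) := by
  have k := Pool.UST.full_event hp E (F.X N) (fun ω => (F.sbx σ r U N a s t ω, Θ ω))
    (cap := (((N : ℝ) - r) + ((N : ℝ) - U)) * Real.log 2 + K2 B)
    (δ := F.vdf p σ r U N a s t Θ + K2 B) (fun q hq hpos =>
      CH_X_le (σ := σ) (a := a) (s := s) (t := t) hq hσ hB hr hU (fun ω hω => hb ω (hpos ω hω)) Θ)
    (by unfold Fam.vdf; linarith)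
  have k2 : 0 ≤ Pe p E * K2 B := mul_nonneg (Pe_nonneg hp E) (K2_nonneg hB)
  have e : Pe p E * F.vdf (Pool.Agent.H49.Ent.cond p E True) σ r U N a s t Θ =
      Pe p E * ((((N : ℝ) - r) + ((N : ℝ) - U)) * Real.log 2) -
      Pe p E * CH (Pool.Agent.H49.Ent.cond p E True) (F.X N)
        (fun ω => (F.sbx σ r U N a s t ω, Θ ω)) := by
    unfold Fam.vdf
    ring
  rw [e]
  linarith

theorem vdf_event_le (hp : IsLaw p) (hσ : Function.Bijective σ) {r U N : ℕ} {B : ℝ} (hB : 1 ≤ B)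
    (hr : r ≤ N) (hU : U ≤ N) (hb : ∀ ω, 0 < p ω → |a ω| ≤ B ∧ |s ω| ≤ B ∧ |t ω| ≤ B)
    (Θ : F.Ω → τ) (E : F.Ω → Prop) {ϖ : ℝ} (hϖ : 0 < ϖ) (hE : ϖ ≤ Pe p E) :
    F.vdf (Pool.Agent.H49.Ent.cond p E True) σ r U N a s t Θ ≤
      (F.vdf p σ r U N a s t Θ + (K2 B + Real.log 2)) / ϖ := by
  have k := vdf_event (σ := σ) (a := a) (s := s) (t := t) hp hσ hB hr hU hb Θ E
  have k0 := vdf_ge (σ := σ) (a := a) (s := s) (t := t) hp hσ hB hr hU hb Θ
  have hl : 0 < Real.log 2 := Real.log_pos (by norm_num)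
  have hP : 0 < Pe p E := lt_of_lt_of_le hϖ hE
  rw [le_div_iff₀ hϖ]
  by_cases hv : 0 ≤ F.vdf (Pool.Agent.H49.Ent.cond p E True) σ r U N a s t Θ
  · calc _ ≤ F.vdf (Pool.Agent.H49.Ent.cond p E True) σ r U N a s t Θ * Pe p E :=
        mul_le_mul_of_nonneg_left hE hv
      _ ≤ _ := by linarith
  · have : F.vdf (Pool.Agent.H49.Ent.cond p E True) σ r U N a s t Θ * ϖ ≤ 0 :=
      mul_nonpos_of_nonpos_of_nonneg (not_le.1 hv).le hϖ.le
    linarith

/-! ### The frame of a finer window -/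

/-- **Principle M, one step.** The frame `(a', s', t')` of a finer window in the condition: the loss
is the information of this frame about the rows of the next `δ` digits. -/
theorem vdf_fine (hp : IsLaw p) (hσ : Function.Bijective σ) {r U N δ : ℕ} {B D : ℝ}
    (hB : 1 ≤ B) (hD : 1 ≤ D) (h3 : r + δ ≤ N) (h4 : U + δ ≤ N)
    (hb : ∀ ω, 0 < p ω → |a ω| ≤ B ∧ |s ω| ≤ B ∧ |t ω| ≤ B)
    (hb' : ∀ ω, 0 < p ω → |a' ω| ≤ B ∧ |s' ω| ≤ B ∧ |t' ω| ≤ B)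
    (hn : ∀ ω, 0 < p ω → Fnr r U N D (a ω) (s ω) (t ω) (a' ω) (s' ω) (t' ω))
    (Θ : F.Ω → τ) (hf : Fd p Θ a s t) (κ : F.Ω → τ')
    (hf' : Fd p (fun ω => (κ ω, Θ ω)) a' s' t') :
    F.vdf p σ r U N a' s' t' (fun ω => (κ ω, Θ ω)) ≤ F.vdf p σ r U N a s t Θ +
      F.vdf p σ (r + δ) (U + δ) N a' s' t' (fun ω => (κ ω, Θ ω)) +
      (CH p κ (fun ω => (F.sbx σ r U N a s t ω, Θ ω)) -
        CH p κ (fun ω => (F.sbx σ (r + δ) (U + δ) N a s t ω, Θ ω))) +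
      (3 * K1 B + K2 B + (3 : ℕ) * Real.log (6 * (D + D * D) + 3) +
        (3 : ℕ) * Real.log (6 * D + 3)) := by
  have hfκ : Fd p (fun ω => (κ ω, Θ ω)) a s t := fun ω ω' x y e =>
    hf ω ω' x y (Prod.ext_iff.mp e).2
  have k1 := vdf_chg (σ := σ) (a := a') (s := s') (t := t') (a' := a) (s' := s) (t' := t)
    (r := r) (U := U) (N := N) hp hB hD (by omega) (by omega) hb hn (fun ω => (κ ω, Θ ω)) hf' hfκ
  have k2 := vdf_add (σ := σ) (a := a) (s := s) (t := t) (r := r) (U := U) (N := N)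
    (r' := r + δ) (U' := U + δ) hp hσ hB (by omega) (by omega) h3 h4 hb Θ κ
  have hD' : 1 ≤ D + D * D := by nlinarith
  have k3 := vdf_chg (σ := σ) (a := a) (s := s) (t := t) (a' := a') (s' := s') (t' := t')
    (r := r + δ) (U := U + δ) (N := N) hp hB hD' h3 h4 hb' (fun ω hω => by
      have h5 : Fnr r U N (D + D * D) (a' ω) (s' ω) (t' ω) (a ω) (s ω) (t ω) :=
        (hn ω hω).symm (by linarith)
      obtain ⟨g1, g2, g3⟩ := h5
      refine ⟨?_, ?_, ?_⟩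
      · refine g1.trans (le_of_eq ?_)
        rw [pow_add, pow_add]
        field_simp
      · refine g2.trans ?_
        gcongr
        · norm_num
        · omega
      · refine g3.trans ?_
        gcongr
        · norm_num
        · omega) (fun ω => (κ ω, Θ ω)) hfκ hf'
  have e1 : K1 B = (3 : ℕ) * Real.log (6 * B + 3) := rfl
  linarith

/-! ### (H5) on events -/

/-- **(H5) on events**, for nested boxes: from the entropy of the positions on the event and the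
deficit of the finer box. -/
theorem h5_gen (hp : IsLaw p) (hσ : Function.Bijective σ) {r U P r' U' P' : ℕ} {B : ℝ}
    (hB : 1 ≤ B) (hr : r ≤ r') (hU : U ≤ U') (hP : P ≤ P') (h1 : r ≤ P) (h2 : U ≤ P)
    (h3 : r' ≤ P') (h4 : U' ≤ P')
    (hb : ∀ ω, 0 < p ω → |a ω| ≤ B ∧ |s ω| ≤ B ∧ |t ω| ≤ B) (Θ : F.Ω → τ)
    (E : F.Ω → Prop) {ϖ : ℝ} (hϖ : 0 < ϖ) (hE : ϖ ≤ Pe p E) :
    CH (Pool.Agent.H49.Ent.cond p E True) (F.sbx σ r' U' P' a s t)
        (fun ω => (F.sbx σ r U P a s t ω, Θ ω)) ≤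
      CH (Pool.Agent.H49.Ent.cond p E True) (F.X P') (fun ω => (F.X P ω, Θ ω)) +
        (((r' : ℝ) - r) + ((U' : ℝ) - U) - 2 * ((P' : ℝ) - P)) * Real.log 2 +
        (F.vdf p σ r' U' P' a s t Θ + (K2 B + Real.log 2)) / ϖ + (K1 B + K2 B) := by
  have hE0 : 0 < Pe p E := lt_of_lt_of_le hϖ hE
  have hl := Pool.UST.isLaw_ev hp hE0
  have k1 := block_le (σ := σ) (a := a) (s := s) (t := t) hl hσ hB hr hU hP h1 h2 h3 h4
    (fun ω hω => hb ω ((cond_pos_iff hp.nonneg E True ω).1 hω).1) Θ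
  have k2 := vdf_event_le (σ := σ) (a := a) (s := s) (t := t) hp hσ hB h3 h4 hb Θ E hϖ hE
  linarith

end sbx

end Vd

end Pool.KA
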