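import Pool.Agent.H23.S6E.Vdf
import Pool.Agent.H51.S6.Loc
import Pool.Agent.H40.S6.Ev

/-!
# Natural boxes are full: the statement used by all cases of the engine

`NL F A σ w lam P z`: the plank `z` is a natural label of the windows of length `1 / 2 ^ w`;
`SL F A w κ`: the variable `κ` is a side label of these windows. `NATStmt`: the rows of the plank
directions beyond the natural box of the window `w` and the base velocity `q` are full.
-/

set_option autoImplicit false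

namespace Pool.S6C

open Finset Real
open Pool.Agent.H49.Ent Pool.Agent.H32.Dense Pool.STK Pool.KA Pool.KSAT Pool.K2S Pool.PB Pool.KS6
  Pool.Sel51

/-- **Natural label**: a plank with `lam` digits of the direction and `P` digits of the normal
coordinate, visible from the exact points, and constant on the windows of length `1 / 2 ^ w`. -/
structure NL {J : ℕ} (F : Fam 3 J) (A : F.Ω → Prop) (σ : Fin 3 → Fin 3) (w lam P : ℕ)
    (z : F.Ω → Pln) : Prop where
  inc : ∀ ω, A ω → Inc (σ 0) (σ 1) (σ 2) w lam P 2 (z ω) (F.t ω) (F.x ω) (F.d ω)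
  vis : ∀ ω ω', A ω → A ω' → Fam.pt F ω = Fam.pt F ω' → z ω = z ω'
  con : ∀ ω ω', A ω → A ω' → slam F w ω = slam F w ω' → z ω = z ω'

/-- **Side label** of the windows of length `1 / 2 ^ w`. -/
structure SL {J : ℕ} (F : Fam 3 J) (A : F.Ω → Prop) (w : ℕ) {τ : Type} (κ : F.Ω → τ) : Prop where
  vis : ∀ ω ω', A ω → A ω' → Fam.pt F ω = Fam.pt F ω' → κ ω = κ ω'
  con : ∀ ω ω', A ω → A ω' → slam F w ω = slam F w ω' → κ ω = κ ω'

/-- The frame of a plank: direction. -/
def fra {Ω : Type} (z : Ω → Pln) (ω : Ω) : ℝ := (z ω).e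

/-- The frame of a plank: coefficient of the second coordinate. -/
def frs {Ω : Type} (z : Ω → Pln) (ω : Ω) : ℝ := -(z ω).s

/-- The frame of a plank: coefficient of the first coordinate. -/
def frt {Ω : Type} (z : Ω → Pln) (ω : Ω) : ℝ := -(z ω).c

/-- **(NAT)** Natural boxes are full. Near the window `W g` and the base velocity `P - g`, the
deficit of the rows of the plank directions beyond the natural box of the window `w` and the base
velocity `q`, given the natural label and any side label of the window, is at most `ε X J` for the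
windows and velocities at distance at most `X`; the natural label may lack `ε₀ X J` digits. -/
def NATStmt : Prop :=
  ∀ (S : PCl 3) (a R h₁ : ℝ) (i₀ : Fin 3) (c s₂ : ℝ) (r : ℝ → ℝ) (D : Set ℝ) (σ : ℝ → Row),
    Cs S a R h₁ i₀ c s₂ r D σ → ∀ (act : ℚ → ℝ) (K : Set ℝ) (W : ℝ → ℝ) (v₁ t : ℚ)
    (e₁ Q₀ P g v₀ v ρ a₀ α : ℝ), Loc S i₀ c s₂ r D σ act K W v₁ t e₁ Q₀ P g v₀ v ρ a₀ α →
    ∀ ε : ℝ, 0 < ε → ∃ ε₀ X₀ : ℝ, 0 < ε₀ ∧ 0 < X₀ ∧ ∀ X : ℝ, 0 < X → X ≤ X₀ →
    ∀ (w : ℚ) (q N : ℝ), |(w : ℝ) - W g| ≤ X → |q - (P - g)| ≤ X → N ≤ (σ 1).th w + q →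
    (w : ℝ) + (σ 1).rot w + q ≤ N →
    Clp S (fun J F A => ∀ sg : Fin 3 → Fin 3, Function.Bijective sg → sg 0 = i₀ →
      ∀ z : F.Ω → Pln, NL F A sg ⌊(w : ℝ) * J⌋₊ ⌊((σ 1).rot w - ε₀ * X) * J⌋₊
        ⌊((σ 1).th w - ε₀ * X) * J⌋₊ z →
      ∀ (τ : Type) (κ : F.Ω → τ), SL F A ⌊(w : ℝ) * J⌋₊ κ →
        F.vdf (Pool.Agent.H49.Ent.cond F.p A True) sg ⌊((w : ℝ) + q) * J⌋₊
          ⌊((w : ℝ) + (σ 1).rot w + q) * J⌋₊ ⌊N * J⌋₊ (fra z) (frs z) (frt z)
          (fun ω => (κ ω, (z ω, F.W ω))) ≤ ε * X * J)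

end Pool.S6C
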