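import Pool.Agent.H23.S6E.Stmts
import Pool.Agent.H23.S6E.Vdf2

/-!
# LEMMA D: statements

`RTEStmt`: the rate of the positions near the row `P`, on events. `LDOneStmt`: boxes which are finer
than a natural box of one window (rising case, double plateau). `LDTwoStmt`: two-point rule, the
rows of the first coordinate at a fine window `w₁`, the rows of the second coordinate at a coarser
window `w₂` (falling case, plateaus). All integer levels at once.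
-/

set_option autoImplicit false

namespace Pool.S6C

open Finset Real
open Pool.Agent.H49.Ent Pool.Agent.H32.Dense Pool.STK Pool.KA Pool.KSAT Pool.K2S Pool.PB Pool.KS6
  Pool.Sel51

/-- **(RTE)** The rate of the positions near a row, on events. -/
def RTEStmt : Prop :=
  ∀ (S : PCl 3) (a R h₁ : ℝ) (i₀ : Fin 3) (c s₂ : ℝ) (r : ℝ → ℝ) (D : Set ℝ) (σ : ℝ → Row),
    Cs S a R h₁ i₀ c s₂ r D σ → ∀ P r' : ℝ, 0 < P → P < 1 → r' ≤ 3 - c → HasDerivAt r r' P →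
    ∀ ϖ ε : ℝ, 0 < ϖ → 0 < ε → ∃ X₀ : ℝ, 0 < X₀ ∧ ∀ X : ℝ, 0 < X → X ≤ X₀ →
    Clp S (fun J F A => ∀ E : F.Ω → Prop, Sub E A → ϖ * Pe F.p A ≤ Pe F.p E →
      ∀ P₁ P₂ : ℕ, P₁ ≤ P₂ → |(P₁ : ℝ) - P * J| ≤ X * J → |(P₂ : ℝ) - P * J| ≤ X * J →
      CH (Pool.Agent.H49.Ent.cond F.p E True) (F.X P₂) (fun ω => (F.X P₁ ω, F.W ω)) ≤
        (3 - c) * ((P₂ : ℝ) - P₁) * Real.log 2 + ε * X * J)

/-- The frame `(a, s, t)` is close to the frame of the natural label `z` of a window, at the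
natural precisions. -/
def Fcl {J : ℕ} (F : Fam 3 J) (A : F.Ω → Prop) (w p G : ℝ) (E : ℝ) (z : F.Ω → Pln)
    (a s t : F.Ω → ℝ) : Prop :=
  ∀ ω, A ω → Fnr ⌊w * J⌋₊ ⌊p * J⌋₊ ⌊G * J⌋₊ E (fra z ω) (frs z ω) (frt z ω) (a ω) (s ω) (t ω)

/-- **(LD, one window)** A box which is finer than a natural box of the window `w`, with the normal
coordinate at most at the natural precision. -/
def LDOneStmt : Prop :=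
  ∀ (S : PCl 3) (a R h₁ : ℝ) (i₀ : Fin 3) (c s₂ : ℝ) (r : ℝ → ℝ) (D : Set ℝ) (σ : ℝ → Row),
    Cs S a R h₁ i₀ c s₂ r D σ → ∀ (act : ℚ → ℝ) (K : Set ℝ) (W : ℝ → ℝ) (v₁ t : ℚ)
    (e₁ Q₀ P g v₀ v ρ a₀ α : ℝ), Loc S i₀ c s₂ r D σ act K W v₁ t e₁ Q₀ P g v₀ v ρ a₀ α →
    ∀ ε : ℝ, 0 < ε → ∃ ε₀ X₀ : ℝ, 0 < ε₀ ∧ 0 < X₀ ∧ ∀ X : ℝ, 0 < X → X ≤ X₀ →
    ∀ w : ℚ, |(w : ℝ) - W g| ≤ X →
    Clp S (fun J F A => ∀ sg : Fin 3 → Fin 3, Function.Bijective sg → sg 0 = i₀ →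
      ∀ z : F.Ω → Pln, NL F A sg ⌊(w : ℝ) * J⌋₊ ⌊((σ 1).rot w - ε₀ * X) * J⌋₊
        ⌊((σ 1).th w - ε₀ * X) * J⌋₊ z →
      ∀ (a s t : F.Ω → ℝ) (E : ℝ), (∀ ω ω', A ω → A ω' → z ω = z ω' →
        a ω = a ω' ∧ s ω = s ω' ∧ t ω = t ω') → (∀ ω, A ω → |a ω| ≤ 8 ∧ |s ω| ≤ 8 ∧ |t ω| ≤ 8) →
      1 ≤ E → Real.log E ≤ ε₀ * X * J → Fcl F A w ((w : ℝ) + (σ 1).rot w) ((σ 1).th w) E z a s t →
      ∀ (r U N : ℕ) (q : ℝ), |q - (P - g)| ≤ X → ((w : ℝ) + q) * J ≤ r →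
        ((w : ℝ) + (σ 1).rot w + q) * J ≤ U → (N : ℝ) ≤ ((σ 1).th w + q) * J → r ≤ N → U ≤ N →
        F.vdf (Pool.Agent.H49.Ent.cond F.p A True) sg r U N a s t F.W ≤ ε * X * J)

/-- **(LD, two windows)** Two-point rule: `w₁` is a fine window, with the points `q₁` for the rows
of the first coordinate, `w₂ ≤ w₁` a coarser one, with the points `q₂` for the rows of the second
coordinate. The frame is natural at both windows. The losses are the informations of the frame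
(Principle M). -/
def LDTwoStmt : Prop :=
  ∀ (S : PCl 3) (a R h₁ : ℝ) (i₀ : Fin 3) (c s₂ : ℝ) (r : ℝ → ℝ) (D : Set ℝ) (σ : ℝ → Row),
    Cs S a R h₁ i₀ c s₂ r D σ → ∀ (act : ℚ → ℝ) (K : Set ℝ) (W : ℝ → ℝ) (v₁ t : ℚ)
    (e₁ Q₀ P g v₀ v ρ a₀ α : ℝ), Loc S i₀ c s₂ r D σ act K W v₁ t e₁ Q₀ P g v₀ v ρ a₀ α →
    ∀ ε : ℝ, 0 < ε → ∃ ε₀ X₀ : ℝ, 0 < ε₀ ∧ 0 < X₀ ∧ ∀ X : ℝ, 0 < X → X ≤ X₀ →
    ∀ w₁ w₂ : ℚ, |(w₁ : ℝ) - W g| ≤ X → |(w₂ : ℝ) - W g| ≤ X → w₂ ≤ w₁ →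
    Clp S (fun J F A => ∀ sg : Fin 3 → Fin 3, Function.Bijective sg → sg 0 = i₀ →
      ∀ z₁ z₂ : F.Ω → Pln,
      NL F A sg ⌊(w₁ : ℝ) * J⌋₊ ⌊((σ 1).rot w₁ - ε₀ * X) * J⌋₊ ⌊((σ 1).th w₁ - ε₀ * X) * J⌋₊ z₁ →
      NL F A sg ⌊(w₂ : ℝ) * J⌋₊ ⌊((σ 1).rot w₂ - ε₀ * X) * J⌋₊ ⌊((σ 1).th w₂ - ε₀ * X) * J⌋₊ z₂ →
      ∀ (a s t : F.Ω → ℝ) (E : ℝ), (∀ ω ω', A ω → A ω' → z₁ ω = z₁ ω' → z₂ ω = z₂ ω' →
        a ω = a ω' ∧ s ω = s ω' ∧ t ω = t ω') → (∀ ω, A ω → |a ω| ≤ 8 ∧ |s ω| ≤ 8 ∧ |t ω| ≤ 8) →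
      1 ≤ E → Real.log E ≤ ε₀ * X * J →
      Fcl F A w₁ ((w₁ : ℝ) + (σ 1).rot w₁) ((σ 1).th w₁) E z₁ a s t →
      Fcl F A w₂ ((w₂ : ℝ) + (σ 1).rot w₂) ((σ 1).th w₂) E z₂ a s t →
      ∀ (n m : ℕ) (dd : ℝ) (r U N : ℕ → ℕ) (q₁ q₂ : ℕ → ℝ),
        (w₁ : ℝ) - w₂ ≤ dd → ((w₁ : ℝ) + (σ 1).rot w₁) - (w₂ + (σ 1).rot w₂) ≤ dd →
        (∀ k < n, |q₁ k - (P - g)| ≤ X ∧ ((w₁ : ℝ) + q₁ k) * J ≤ r k ∧
          (N k : ℝ) ≤ ((σ 1).th w₁ + q₁ k) * J) →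
        (∀ k < n, |q₂ k - (P - g)| ≤ X ∧ (r k : ℝ) ≤ ((w₂ : ℝ) + q₂ k) * J ∧
          ((w₂ : ℝ) + (σ 1).rot w₂ + q₂ k) * J ≤ U k ∧ (N k : ℝ) ≤ ((σ 1).th w₂ + q₂ k) * J ∧
          U k + (dd + X) * J ≤ N k) →
        (∀ k, k + m < n → (q₂ k + dd) * J + 2 ≤ q₂ (k + m) * J ∧ N k ≤ N (k + m)) →
        ∃ loss : ℕ → ℝ, (∀ k, 0 ≤ loss k) ∧
          ∑ k ∈ range n, loss k ≤ m * CH (Pool.Agent.H49.Ent.cond F.p A True)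
            (fun ω => (a ω, s ω, t ω)) (fun ω => (z₂ ω, F.W ω)) ∧
          ∀ k < n, F.vdf (Pool.Agent.H49.Ent.cond F.p A True) sg (r k) (U k) (N k) a s t F.W ≤
            ε * X * J + loss k)

end Pool.S6C
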