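import Pool.Agent.H33.S6.NatDef
import Pool.Agent.H2.UST.Row

/-!
# Closeness of two planks with the same lines: the statement

At a window `v`, where the own slopes `al` are straight beyond the direction number: a relation
`c' d₀ + s' d₁ ≈ const` to `m` digits on the fans, with coefficients which are functions of the
exact point and of the line with its window, holds only if `s'` and `c' + s' al` are small.
-/

set_option autoImplicit false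

namespace Pool.S6V

open Finset Real
open Pool.Agent.H49.Ent Pool.Agent.H32.Dense Pool.STK Pool.KA Pool.KSAT Pool.K2S Pool.PB Pool.KS6
  Pool.S6C Pool.S6U

/-- **(C5)** The relations of the velocities at exact points with coefficients `c'`, `s'` which are
visible from the exact points and constant on the windows `v`: outside an event of exponentially
small proportion `s'` and `c' + s' al` are as small as the precision `m` allows. -/
def C5Stmt : Prop :=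
  ∀ (S : PCl 3) (a R h₁ : ℝ) (i₀ : Fin 3) (c s₂ : ℝ) (r : ℝ → ℝ) (D : Set ℝ) (σ : ℝ → Row),
    Cs S a R h₁ i₀ c s₂ r D σ → ∀ v : ℚ, 0 ≤ v → v ≤ 1 → (σ 1).rot v < (σ 1).pi →
    ∀ θ C : ℝ, 0 < θ → 1 ≤ C → ∃ τ : ℝ, 0 < τ ∧ Clp S (fun J F A => ∀ ς : Fin 3 → Fin 3,
      Function.Injective ς → ς 0 = i₀ → ∀ L m : ℕ, ((σ 1).rot v + θ) * J ≤ L →
      ∀ (al nu b b' : (Fin 3 → ℤ) × (ℕ × F.ζ) → ℝ) (c s c' s' : F.Ω → ℝ),
      (∃ φ : (Fin 3 → ℤ) × (ℕ × F.ζ) → (ℝ × ℝ) × (ℝ × ℝ), ∀ ω, A ω →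
        ((c ω, s ω), (c' ω, s' ω)) = φ (Fam.pt F ω)) →
      (∃ ψ : ((Fin 3 → ℝ) × (Fin 3 → ℝ)) × F.ζ × ℕ → (ℝ × ℝ) × (ℝ × ℝ), ∀ ω, A ω →
        ((c ω, s ω), (c' ω, s' ω)) = ψ (slam F ⌊(v : ℝ) * J⌋₊ ω)) →
      (∀ ω, A ω → |c ω| ≤ C ∧ |s ω| ≤ C ∧ |al (Fam.pt F ω)| ≤ C) →
      (∀ ω, A ω → |F.d ω (ς 1) - al (Fam.pt F ω) * F.d ω (ς 0) - nu (Fam.pt F ω)| ≤
        C / 2 ^ L) →
      (∀ ω, A ω → |c ω * F.d ω (ς 0) + s ω * F.d ω (ς 1) + F.d ω (ς 2) - b (Fam.pt F ω)| ≤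
        C / 2 ^ L) →
      (∀ ω, A ω → |c' ω * F.d ω (ς 0) + s' ω * F.d ω (ς 1) - b' (Fam.pt F ω)| ≤ C / 2 ^ m) →
      Pe F.p (fun ω => A ω ∧
        ((2 : ℝ) ^ (θ * J) * (2 : ℝ) ^ ((σ 1).rot v * J) / 2 ^ m < |s' ω| ∨
          (2 : ℝ) ^ (θ * J) / 2 ^ m < |c' ω + s' ω * al (Fam.pt F ω)|)) ≤
        Real.exp (-(τ * J)) * Pe F.p A)

end Pool.S6V
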