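import Pool.Agent.H23.S6E.Vdf2

/-!
# Losses with a spacing, levels of closeness, change of the frame in a block
-/

set_option autoImplicit false

namespace Pool.KA

open Finset Real
open Pool.Agent.H49.Ent Pool.Agent.H32.Dense Pool.STK Pool.K2S

variable {J : ℕ}

namespace Vd

/-- Sum of losses which telescope with the spacing `m`. -/
theorem sum_shift_le {n m : ℕ} {G : ℝ} {g g' : ℕ → ℝ} (h0' : ∀ k, 0 ≤ g' k)
    (hG : ∀ k < n, g k ≤ G) (hG0 : 0 ≤ G) (h : ∀ k, k + m < n → g (k + m) ≤ g' k) :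
    ∑ k ∈ range n, (g k - g' k) ≤ m * G := by
  rw [Finset.sum_sub_distrib]
  rcases le_or_gt n m with hn | hn
  · have h1 : ∑ k ∈ range n, g k ≤ ∑ _k ∈ range n, G :=
      Finset.sum_le_sum fun k hk => hG k (Finset.mem_range.1 hk)
    rw [Finset.sum_const, Finset.card_range, nsmul_eq_mul] at h1
    have h2 : 0 ≤ ∑ k ∈ range n, g' k := Finset.sum_nonneg fun k _ => h0' k
    have h3 : (n : ℝ) * G ≤ m * G := mul_le_mul_of_nonneg_right (by exact_mod_cast hn) hG0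
    linarith
  · obtain ⟨d, rfl⟩ := Nat.exists_eq_add_of_le hn.le
    have h1 : ∑ k ∈ range (m + d), g k = ∑ k ∈ range m, g k + ∑ k ∈ range d, g (m + k) :=
      Finset.sum_range_add g m d
    have h2 : ∑ k ∈ range d, g' k ≤ ∑ k ∈ range (m + d), g' k := by
      refine Finset.sum_le_sum_of_subset_of_nonneg ?_ fun k _ _ => h0' k
      intro k hk
      rw [Finset.mem_range] at hk ⊢
      omega
    have h3 : ∑ k ∈ range d, g (m + k) ≤ ∑ k ∈ range d, g' k := by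
      refine Finset.sum_le_sum fun k hk => ?_
      have hk' := Finset.mem_range.1 hk
      rw [add_comm m k]
      exact h k (by omega)
    have h4 : ∑ k ∈ range m, g k ≤ ∑ _k ∈ range m, G :=
      Finset.sum_le_sum fun k hk => hG k (by have := Finset.mem_range.1 hk; omega)
    rw [Finset.sum_const, Finset.card_range, nsmul_eq_mul] at h4
    linarith

/-- Closeness of frames at other levels. -/
theorem fnr_lvl {r₀ U₀ N₀ r U N : ℕ} {E a s t a' s' t' : ℝ} (hE : 0 ≤ E)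
    (h : Fnr r₀ U₀ N₀ E a s t a' s' t') (h1 : r₀ + U ≤ r + U₀ + 2) (h2 : U₀ + N ≤ U + N₀ + 2)
    (h3 : r₀ + N ≤ r + N₀ + 2) : Fnr r U N (4 * E) a s t a' s' t' := by
  have key : ∀ {x y x' y' : ℕ}, x + y' ≤ x' + y + 2 →
      E * (2 : ℝ) ^ x / 2 ^ y ≤ 4 * E * 2 ^ x' / 2 ^ y' := by
    intro x y x' y' hxy
    rw [div_le_div_iff₀ (by positivity) (by positivity)]
    have h4 : (2 : ℝ) ^ (x + y') ≤ 2 ^ (x' + y + 2) := pow_le_pow_right₀ (by norm_num) hxy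
    have e1 : (2 : ℝ) ^ (x + y') = 2 ^ x * 2 ^ y' := pow_add _ _ _
    have e2 : (2 : ℝ) ^ (x' + y + 2) = 4 * (2 ^ x' * 2 ^ y) := by
      rw [pow_add, pow_add]
      ring
    rw [e1, e2] at h4
    calc E * 2 ^ x * 2 ^ y' = E * (2 ^ x * 2 ^ y') := by ring
      _ ≤ E * (4 * (2 ^ x' * 2 ^ y)) := mul_le_mul_of_nonneg_left h4 hE
      _ = 4 * E * 2 ^ x' * 2 ^ y := by ring
  exact ⟨h.1.trans (key h1), h.2.1.trans (key h2), h.2.2.trans (key h3)⟩

section sbx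

variable {F : Fam 3 J} {p : F.Ω → ℝ} {σ : Fin 3 → Fin 3} {a s t a' s' t' : F.Ω → ℝ}
  {S τ τ' : Type}

/-- **Change of the frame in a block**: a box in the frame `(a, s, t)` contains more information
than the box in the coarser frame `(a', s', t')`. -/
theorem h5_frame (hp : IsLaw p) {r U P r' U' P' : ℕ} {D D' : ℝ} (hD : 1 ≤ D) (hD' : 1 ≤ D')
    (hn : ∀ ω, 0 < p ω → Fnr r U P D (a ω) (s ω) (t ω) (a' ω) (s' ω) (t' ω))
    (hn' : ∀ ω, 0 < p ω → Fnr r' U' P' D' (a' ω) (s' ω) (t' ω) (a ω) (s ω) (t ω)) (Θ : F.Ω → τ)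
    (hd : ∀ ω ω', 0 < p ω → 0 < p ω' → a ω = a ω' → s ω = s ω' → t ω = t ω' → Θ ω = Θ ω' →
      a' ω = a' ω' ∧ s' ω = s' ω' ∧ t' ω = t' ω') :
    CH p (F.sbx σ r' U' P' a s t) (fun ω => (F.sbx σ r U P a s t ω, Θ ω)) ≤
      CH p (F.sbx σ r' U' P' a' s' t') (fun ω => (F.sbx σ r U P a' s' t' ω, Θ ω)) +
      ((3 : ℕ) * Real.log (6 * D + 3) + (3 : ℕ) * Real.log (6 * D' + 3)) := by
  have h0 := hp.nonneg
  have hfd : Fd p (fun ω => (F.sbx σ r U P a s t ω, Θ ω)) a' s' t' := by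
    intro ω ω' hω hω' e
    have e1 := Prod.ext_iff.mp e
    obtain ⟨b1, b2, b3⟩ := ((sbx_ext).1 e1.1).1
    obtain ⟨c1, c2, c3⟩ := hd ω ω' hω hω' b1 b2 b3 e1.2
    rw [Prod.ext_iff, Prod.ext_iff]
    exact ⟨c1, c2, c3⟩
  have k1 := CH_le_add h0 (F.sbx σ r' U' P' a s t) (F.sbx σ r' U' P' a' s' t')
    (fun ω => (F.sbx σ r U P a s t ω, Θ ω))
  have k2 := CH_sbx_chg (σ := σ) (a := a') (s := s') (t := t') (a' := a) (s' := s) (t' := t)
    (r := r') (U := U') (P := P') (r₀ := r') (U₀ := U') (P₀ := P') hp hD' le_rfl le_rfl le_rfl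
    (fun ω hω => hn' ω hω)
    (fun ω => (F.sbx σ r' U' P' a' s' t' ω, (F.sbx σ r U P a s t ω, Θ ω)))
    (fun _ _ _ _ e => (Prod.ext_iff.mp e).1)
    (fd_sbx (σ := σ) (r := r) (U := U) (P := P) _ fun _ _ _ _ e =>
      (Prod.ext_iff.mp (Prod.ext_iff.mp e).2).1)
  have k3 := CH_le_add h0 (F.sbx σ r' U' P' a' s' t') (F.sbx σ r U P a' s' t')
    (fun ω => (F.sbx σ r U P a s t ω, Θ ω))
  have k4 := CH_sbx_chg (σ := σ) (a := a) (s := s) (t := t) (a' := a') (s' := s') (t' := t')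
    (r := r) (U := U) (P := P) (r₀ := r) (U₀ := U) (P₀ := P) hp hD le_rfl le_rfl le_rfl
    (fun ω hω => hn ω hω) (fun ω => (F.sbx σ r U P a s t ω, Θ ω))
    (fun _ _ _ _ e => (Prod.ext_iff.mp e).1) hfd
  have k5 : CH p (F.sbx σ r' U' P' a' s' t')
      (fun ω => (F.sbx σ r U P a' s' t' ω, (F.sbx σ r U P a s t ω, Θ ω))) ≤
      CH p (F.sbx σ r' U' P' a' s' t') (fun ω => (F.sbx σ r U P a' s' t' ω, Θ ω)) :=
    CH_mono_cond h0 fun _ _ _ _ e => Prod.ext (Prod.ext_iff.mp e).1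
      (Prod.ext_iff.mp (Prod.ext_iff.mp e).2).2
  linarith

/-- Principle M for a sequence of boxes with the spacing `m`. -/
theorem prinM_mod (hp : IsLaw p) {n m : ℕ} (r U N r' U' : ℕ → ℕ) (Θ : F.Ω → τ) (κ : F.Ω → τ')
    (h1 : ∀ k, k + m < n → r' k ≤ r (k + m)) (h2 : ∀ k, k + m < n → U' k ≤ U (k + m))
    (h3 : ∀ k, k + m < n → N k ≤ N (k + m)) :
    ∑ k ∈ range n, (CH p κ (fun ω => (F.sbx σ (r k) (U k) (N k) a s t ω, Θ ω)) -
        CH p κ (fun ω => (F.sbx σ (r' k) (U' k) (N k) a s t ω, Θ ω))) ≤ m * CH p κ Θ := by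
  have h0 := hp.nonneg
  refine sum_shift_le (g := fun k => CH p κ (fun ω => (F.sbx σ (r k) (U k) (N k) a s t ω, Θ ω)))
    (g' := fun k => CH p κ (fun ω => (F.sbx σ (r' k) (U' k) (N k) a s t ω, Θ ω)))
    (fun k => CH_nonneg h0 _ _) ?_ (CH_nonneg h0 _ _) ?_
  · intro k _
    exact CH_mono_cond h0 fun _ _ _ _ e => (Prod.ext_iff.mp e).2
  · intro k hk
    exact CH_mono_cond h0 fun _ _ _ _ e => Prod.ext (sbx_lift (h1 k hk) (h2 k hk)
      (h3 k hk) (Prod.ext_iff.mp e).1) (Prod.ext_iff.mp e).2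

end sbx

end Vd

end Pool.KA
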