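import Pool.Agent.H23.S6E.Stmts2
import Pool.Agent.H23.S6E.Vdf3
import Pool.Agent.H75.S6C.Ths
import Pool.Agent.H80.KS6.Start

/-!
# LEMMA D: natural boxes at all integer levels, in near frames
-/

set_option autoImplicit false

namespace Pool.S6C

open Finset Real
open Pool.Agent.H49.Ent Pool.Agent.H32.Dense Pool.STK Pool.KA Pool.KSAT Pool.K2S Pool.PB Pool.KS6
  Pool.Sel51 Pool.KA.Vd

theorem ldm_pow {C : ℝ} (hC : 0 ≤ C) {k k' : ℕ} (h : k ≤ k') :
    C / (2 : ℝ) ^ k' ≤ C / 2 ^ k :=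
  div_le_div_of_nonneg_left hC (by positivity) (pow_le_pow_right₀ (by norm_num) h)

section fam

variable {J : ℕ} {F : Fam 3 J} {A : F.Ω → Prop} {sg : Fin 3 → Fin 3} {w lam P : ℕ}
  {z : F.Ω → Pln}

/-- A natural label is a natural label for smaller precisions. -/
theorem NL.mono {lam' P' : ℕ} (h : NL F A sg w lam P z) (h1 : lam' ≤ lam) (h2 : P' ≤ P) :
    NL F A sg w lam' P' z := by
  refine ⟨fun ω hω => ?_, h.vis, h.con⟩
  have k := h.inc ω hω
  exact ⟨k.e_le, k.c_le, k.s_le, k.pe, k.pu.trans (ldm_pow (by norm_num) (by omega)),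
    k.pn.trans (ldm_pow (by norm_num) h2), k.ve,
    k.vu.trans (ldm_pow (by norm_num) h1),
    k.vn.trans (ldm_pow (by positivity) h2)⟩

theorem NL.bd (h : NL F A sg w lam P z) {ω : F.Ω} (hω : A ω) :
    |fra z ω| ≤ 8 ∧ |frs z ω| ≤ 8 ∧ |frt z ω| ≤ 8 := by
  have k := h.inc ω hω
  refine ⟨k.e_le.trans (by norm_num), ?_, ?_⟩
  · unfold frs
    rw [abs_neg]
    exact k.s_le.trans (by norm_num)
  · unfold frt
    rw [abs_neg]
    exact k.c_le.trans (by norm_num)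

theorem ldm_mem {ω : F.Ω} (h : 0 < Pool.Agent.H49.Ent.cond F.p A True ω) : A ω := by
  have := ((cond_pos_iff F.isLaw.nonneg A True ω).1 h).2
  simpa using this

end fam

section cls

variable {S : PCl 3} {a R h₁ : ℝ} {i₀ : Fin 3} {c s₂ : ℝ} {r : ℝ → ℝ} {D : Set ℝ} {σ : ℝ → Row}

theorem Cs.evpos (hC : Cs S a R h₁ i₀ c s₂ r D σ) (τ : ℝ) (J : ℕ) (F : Fam 3 J) (A : F.Ω → Prop)
    (hA : S.St τ J F A) : 0 < Pe F.p A :=
  lt_of_lt_of_le (Real.exp_pos _) (hC.st τ J F A hA).2.2.2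

theorem Cs.evlaw (hC : Cs S a R h₁ i₀ c s₂ r D σ) :
    Clp S (fun _ F A => IsLaw (Pool.Agent.H49.Ent.cond F.p A True)) :=
  Clp.of one_pos 0 fun J _ F A hA => isLaw_cond F.isLaw (hC.evpos 1 J F A hA)

variable {act : ℚ → ℝ} {K : Set ℝ} {W : ℝ → ℝ} {v₁ t : ℚ} {e₁ Q₀ P g v₀ v ρ a₀ α : ℝ}

/-- **Natural boxes at all integer levels.** -/
theorem nat_unif (hN : NATStmt) (hC : Cs S a R h₁ i₀ c s₂ r D σ)
    (hL : Loc S i₀ c s₂ r D σ act K W v₁ t e₁ Q₀ P g v₀ v ρ a₀ α) {ε : ℝ} (hε : 0 < ε) :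
    ∃ ε₀ X₀ : ℝ, 0 < ε₀ ∧ 0 < X₀ ∧ ∀ X : ℝ, 0 < X → X ≤ X₀ →
    ∀ w : ℚ, |(w : ℝ) - W g| ≤ X →
    Clp S (fun J F A => ∀ sg : Fin 3 → Fin 3, Function.Bijective sg → sg 0 = i₀ →
      ∀ z : F.Ω → Pln, NL F A sg ⌊(w : ℝ) * J⌋₊ ⌊((σ 1).rot w - ε₀ * X) * J⌋₊
        ⌊((σ 1).th w - ε₀ * X) * J⌋₊ z →
      ∀ (τ : Type) (κ : F.Ω → τ), SL F A ⌊(w : ℝ) * J⌋₊ κ →
      ∀ (l U N : ℕ) (q : ℝ), |q - (P - g)| ≤ X → ((w : ℝ) + q) * J ≤ l + 2 →
        ((w : ℝ) + (σ 1).rot w + q) * J ≤ U + 2 → (N : ℝ) ≤ ((σ 1).th w + q) * J + 2 →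
        l ≤ N → U ≤ N →
        F.vdf (Pool.Agent.H49.Ent.cond F.p A True) sg l U N (fra z) (frs z) (frt z)
          (fun ω => (κ ω, (z ω, F.W ω))) ≤ ε * X * J) := by
  obtain ⟨ε₀, X₀, hε₀, hX₀, h⟩ := hN S a R h₁ i₀ c s₂ r D σ hC act K W v₁ t e₁ Q₀ P g v₀ v ρ a₀ α
    hL (ε / 8) (by positivity)
  refine ⟨ε₀, X₀ / 2, hε₀, by positivity, fun X hX hXX w hw => ?_⟩
  have h' := h (2 * X) (by linarith) (by linarith)
  have hεX : 0 < ε₀ * X := by positivity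
  by_cases hh : (w : ℝ) + (σ 1).rot w ≤ (σ 1).th w
  · obtain ⟨n, hn⟩ := exists_nat_gt (128 / ε)
    have hn0 : (0 : ℝ) < n := lt_of_le_of_lt (by positivity) hn
    have hνp : 0 < 3 * X / n := by positivity
    obtain ⟨ν, hν⟩ : ∃ ν : ℝ, ν = 3 * X / n := ⟨_, rfl⟩
    rw [← hν] at hνp
    have hνn : ν * n = 3 * X := by rw [hν]; field_simp
    obtain ⟨Q, hQ⟩ : ∃ Q : ℕ → ℝ, Q = fun i : ℕ => (P - g) - 2 * X + i * ν := ⟨_, rfl⟩
    have hQi : ∀ i < n + 1, |Q i - (P - g)| ≤ 2 * X := by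
      intro i hi
      have h1 : (i : ℝ) ≤ n := by exact_mod_cast Nat.lt_succ_iff.1 hi
      have h2 : (i : ℝ) * ν ≤ n * ν := mul_le_mul_of_nonneg_right h1 hνp.le
      have h3 : 0 ≤ (i : ℝ) * ν := by positivity
      have e : Q i - (P - g) = i * ν - 2 * X := by rw [hQ]; ring
      rw [e, abs_le]
      constructor <;> linarith
    have hcl := Clp.all (S := S) (n + 1) (Φ := fun i J F A => ∀ sg : Fin 3 → Fin 3,
        Function.Bijective sg → sg 0 = i₀ →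
      ∀ z : F.Ω → Pln, NL F A sg ⌊(w : ℝ) * J⌋₊ ⌊((σ 1).rot w - ε₀ * (2 * X)) * J⌋₊
        ⌊((σ 1).th w - ε₀ * (2 * X)) * J⌋₊ z →
      ∀ (τ : Type) (κ : F.Ω → τ), SL F A ⌊(w : ℝ) * J⌋₊ κ →
        F.vdf (Pool.Agent.H49.Ent.cond F.p A True) sg ⌊((w : ℝ) + Q i) * J⌋₊
          ⌊((w : ℝ) + (σ 1).rot w + Q i) * J⌋₊ ⌊((σ 1).th w + Q i) * J⌋₊ (fra z) (frs z) (frt z)
          (fun ω => (κ ω, (z ω, F.W ω))) ≤ ε / 8 * (2 * X) * J)
      (fun i hi => h' w (Q i) ((σ 1).th w + Q i) (hw.trans (by linarith)) (hQi i hi) le_rfl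
        (by linarith))
    have hl2 : Real.log 2 ≤ 1 := by
      have := Real.log_two_lt_d9
      linarith only [this]
    have hl0 : 0 < Real.log 2 := Real.log_pos (by norm_num)
    obtain ⟨J₂, hJ₂⟩ := exists_nat_ge ((2 * K1 8 + K2 8 + 15) / (ε / 4 * X) + 2 / X + 1)
    refine Clp.mono (J₂ := J₂) (hcl.and hC.evlaw) ?_
    rintro J hJ F A ⟨h1, hlaw⟩ sg hsg h0 z hz τ κ hκ l U N q hq e1 e2 e3 e4 e5
    have hJ' : (2 * K1 8 + K2 8 + 15) / (ε / 4 * X) + 2 / X + 1 ≤ (J : ℝ) :=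
      hJ₂.trans (by exact_mod_cast hJ)
    have k1 := K1_nonneg (show (1 : ℝ) ≤ 8 by norm_num)
    have k2 := K2_nonneg (show (1 : ℝ) ≤ 8 by norm_num)
    have g1 : 0 ≤ (2 * K1 8 + K2 8 + 15) / (ε / 4 * X) := by positivity
    have g2 : 0 < 2 / X := by positivity
    have hJ0 : (0 : ℝ) < J := by linarith only [hJ', g1, g2]
    have hJc : 2 * K1 8 + K2 8 + 15 ≤ ε / 4 * X * J := by
      have : (2 * K1 8 + K2 8 + 15) / (ε / 4 * X) ≤ J := by linarith only [hJ', g2]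
      rw [div_le_iff₀ (by positivity)] at this
      linarith only [this]
    have hJX : 2 / (J : ℝ) ≤ X := by
      have : 2 / X ≤ J := by linarith only [hJ', g1]
      rw [div_le_iff₀ hX] at this
      rw [div_le_iff₀ hJ0]
      linarith only [this]
    obtain ⟨q1, q2⟩ := abs_le.1 hq
    -- the point of the grid
    obtain ⟨y, hy⟩ : ∃ y : ℝ, y = (q - 2 / J - ((P - g) - 2 * X)) / ν := ⟨_, rfl⟩
    have hy' : y * ν = q - 2 / J - ((P - g) - 2 * X) := by rw [hy]; field_simp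
    have hy0 : 0 ≤ y := by
      rw [hy]
      apply div_nonneg _ hνp.le
      linarith only [hJX, q1]
    have hyn : y ≤ n := by
      have h2 : 0 < 2 / (J : ℝ) := by positivity
      have h3 : y * ν ≤ n * ν := by
        rw [hy']
        linarith only [hνn, q2, h2]
      exact le_of_mul_le_mul_right h3 hνp
    have hi : ⌊y⌋₊ < n + 1 := by
      have := Nat.floor_le_of_le hyn
      omega
    have f1 := Nat.floor_le hy0
    have f2 := Nat.lt_floor_add_one y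
    have key := h1 ⌊y⌋₊ hi sg hsg h0 z (hz.mono (Nat.floor_le_floor (by nlinarith only [hεX]))
      (Nat.floor_le_floor (by nlinarith only [hεX]))) τ κ hκ
    have hQy : Q ⌊y⌋₊ = (P - g) - 2 * X + ⌊y⌋₊ * ν := by rw [hQ]
    have u1 : Q ⌊y⌋₊ ≤ q - 2 / J := by
      have := mul_le_mul_of_nonneg_right f1 hνp.le
      rw [hQy]
      linarith only [hy', this]
    have u2 : q - 2 / J ≤ Q ⌊y⌋₊ + ν := by
      have := mul_le_mul_of_nonneg_right f2.le hνp.le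
      rw [hQy]
      linarith only [hy', this]
    obtain ⟨q', hq'⟩ : ∃ q' : ℝ, q' = Q ⌊y⌋₊ := ⟨_, rfl⟩
    rw [← hq'] at key u1 u2
    have u3 : q' * J ≤ q * J - 2 := by
      have := mul_le_mul_of_nonneg_right u1 hJ0.le
      have e : (q - 2 / J) * J = q * J - 2 := by field_simp
      linarith only [this, e]
    have u4 : q * J ≤ q' * J + ν * J + 2 := by
      have := mul_le_mul_of_nonneg_right u2 hJ0.le
      have e : (q - 2 / J) * J = q * J - 2 := by field_simp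
      linarith only [this, e]
    have l1 : ⌊((w : ℝ) + q') * J⌋₊ ≤ l := Nat.floor_le_of_le (by linarith only [e1, u3])
    have l2 : ⌊((w : ℝ) + (σ 1).rot w + q') * J⌋₊ ≤ U := Nat.floor_le_of_le (by linarith only [e2, u3])
    have hb : ∀ ω, 0 < Pool.Agent.H49.Ent.cond F.p A True ω →
        |fra z ω| ≤ 8 ∧ |frs z ω| ≤ 8 ∧ |frt z ω| ≤ 8 := fun ω hω => hz.bd (ldm_mem hω)
    have m1 := vdf_mono (σ := sg) (a := fra z) (s := frs z) (t := frt z)
      (N := ⌊((σ 1).th w + q') * J⌋₊) hlaw l1 l2 (fun ω => (κ ω, (z ω, F.W ω)))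
    have hνJ : 9 * (ν * J) ≤ ε / 4 * X * J := by
      have h2 : 128 < ε * n := by
        rw [div_lt_iff₀ hε] at hn
        linarith only [hn]
      have h3 : ν * 128 ≤ 3 * X * ε := by
        have : ν * 128 ≤ ν * (ε * n) := mul_le_mul_of_nonneg_left h2.le hνp.le
        have e : ν * (ε * n) = (ν * n) * ε := by ring
        rw [e, hνn] at this
        linarith only [this]
      have h4 : 9 * ν ≤ ε / 4 * X := by nlinarith only [hνp, h3]
      have := mul_le_mul_of_nonneg_right h4 hJ0.le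
      linarith only [this]
    have hXJ : 0 ≤ ε * X * J := by positivity
    rcases le_or_gt N ⌊((σ 1).th w + q') * J⌋₊ with hNN | hNN
    · have m2 := vdf_N (σ := sg) (a := fra z) (s := frs z) (t := frt z) hlaw hsg
        (show (1 : ℝ) ≤ 8 by norm_num) hNN e4 e5 hb (fun ω => (κ ω, (z ω, F.W ω)))
      have := mul_nonneg hνp.le hJ0.le
      linarith only [k1, k2, hJc, key, m1, m2]
    · have m2 := vdf_lipN (σ := sg) (a := fra z) (s := frs z) (t := frt z) (r := l) (U := U)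
        hlaw hNN.le (fun ω => (κ ω, (z ω, F.W ω)))
      have f3 := Nat.lt_floor_add_one (((σ 1).th w + q') * (J : ℝ))
      have h5 : (N : ℝ) - (⌊((σ 1).th w + q') * J⌋₊ : ℝ) ≤ ν * J + 5 := by linarith only [e3, u4, f3]
      have h6 : (0 : ℝ) ≤ (N : ℝ) - (⌊((σ 1).th w + q') * J⌋₊ : ℝ) := by
        have : (⌊((σ 1).th w + q') * J⌋₊ : ℝ) ≤ N := by exact_mod_cast hNN.le
        linarith only [this]
      have h7 : 3 * ((N : ℝ) - (⌊((σ 1).th w + q') * J⌋₊ : ℝ)) * Real.log 2 ≤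
          3 * (ν * J + 5) * 1 := by
        apply mul_le_mul _ hl2 hl0.le (by positivity)
        linarith only [e3, u4, f3]
      have := mul_nonneg hνp.le hJ0.le
      linarith only [k1, k2, hJc, key, m1, hνJ, m2, h7]
  · push Not at hh
    obtain ⟨J₂, hJ₂⟩ := exists_nat_gt (4 / ((w : ℝ) + (σ 1).rot w - (σ 1).th w))
    refine Clp.of one_pos (J₂ + 1) fun J hJ F A _ sg _ _ z _ τ κ _ l U N q _ _ e2 e3 _ e5 => ?_
    exfalso
    have hd : 0 < (w : ℝ) + (σ 1).rot w - (σ 1).th w := by linarith only [hh]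
    have hJ' : 4 / ((w : ℝ) + (σ 1).rot w - (σ 1).th w) < J := by
      have : (J₂ : ℝ) ≤ J := by exact_mod_cast (Nat.le_succ _).trans hJ
      linarith only [hJ₂, this]
    rw [div_lt_iff₀ hd] at hJ'
    have e5' : (U : ℝ) ≤ N := by exact_mod_cast e5
    nlinarith only [e2, e3, hJ', e5']

end cls

end Pool.S6C
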