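import Pool.Agent.H23.S6E.Ld2

/-!
# LEMMA D: frames near at the levels of the boxes, two windows
-/

set_option autoImplicit false

namespace Pool.S6C

open Finset Real
open Pool.Agent.H49.Ent Pool.Agent.H32.Dense Pool.STK Pool.KA Pool.KSAT Pool.K2S Pool.PB Pool.KS6
  Pool.Sel51 Pool.KA.Vd

section fam

variable {J : ℕ} {F : Fam 3 J} {A : F.Ω → Prop} {sg : Fin 3 → Fin 3} {w w' lam P : ℕ}
  {z : F.Ω → Pln} {τ τ' : Type} {κ : F.Ω → τ} {κ' : F.Ω → τ'}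

/-- A side label of long windows is a side label of short windows. -/
theorem SL.mono (h : SL F A w κ) (hw : w ≤ w') (hJ : w' ≤ J) : SL F A w' κ :=
  ⟨h.vis, fun ω ω' hω hω' e => h.con ω ω' hω hω' (Pool.S6K.slam_mono hw hJ e)⟩

theorem SL.pair (h : SL F A w κ) (h' : SL F A w κ') : SL F A w (fun ω => (κ ω, κ' ω)) :=
  ⟨fun ω ω' hω hω' e => Prod.ext (h.vis ω ω' hω hω' e) (h'.vis ω ω' hω hω' e),
    fun ω ω' hω hω' e => Prod.ext (h.con ω ω' hω hω' e) (h'.con ω ω' hω hω' e)⟩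

/-- A natural label is a side label. -/
theorem NL.sl (h : NL F A sg w lam P z) : SL F A w z := ⟨h.vis, h.con⟩

theorem SL.unit : SL F A w (fun _ => ()) := ⟨fun _ _ _ _ _ => rfl, fun _ _ _ _ _ => rfl⟩

end fam

section cls

variable {S : PCl 3} {a R h₁ : ℝ} {i₀ : Fin 3} {c s₂ : ℝ} {r : ℝ → ℝ} {D : Set ℝ} {σ : ℝ → Row}
  {act : ℚ → ℝ} {K : Set ℝ} {W : ℝ → ℝ} {v₁ t : ℚ} {e₁ Q₀ P g v₀ v ρ a₀ α : ℝ}

/-- **Natural boxes in frames which are near at the levels of a box.** -/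
theorem nat_lv (hN : NATStmt) (hC : Cs S a R h₁ i₀ c s₂ r D σ)
    (hL : Loc S i₀ c s₂ r D σ act K W v₁ t e₁ Q₀ P g v₀ v ρ a₀ α) {ε : ℝ} (hε : 0 < ε) :
    ∃ ε₀ X₀ : ℝ, 0 < ε₀ ∧ 0 < X₀ ∧ ∀ X : ℝ, 0 < X → X ≤ X₀ → ∀ w : ℚ, |(w : ℝ) - W g| ≤ X →
    Clp S (fun J F A => ∀ sg : Fin 3 → Fin 3, Function.Bijective sg → sg 0 = i₀ →
      ∀ z : F.Ω → Pln, NL F A sg ⌊(w : ℝ) * J⌋₊ ⌊((σ 1).rot w - ε₀ * X) * J⌋₊
        ⌊((σ 1).th w - ε₀ * X) * J⌋₊ z →
      ∀ (τ : Type) (κ : F.Ω → τ), SL F A ⌊(w : ℝ) * J⌋₊ κ →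
      ∀ (a s t : F.Ω → ℝ) (E : ℝ), (∀ ω ω', A ω → A ω' → κ ω = κ ω' → z ω = z ω' →
        a ω = a ω' ∧ s ω = s ω' ∧ t ω = t ω') →
      1 ≤ E → Real.log E ≤ ε₀ * X * J →
      ∀ (l' U' l U N : ℕ) (q : ℝ), |q - (P - g)| ≤ X → ((w : ℝ) + q) * J ≤ l' + 2 →
        ((w : ℝ) + (σ 1).rot w + q) * J ≤ U' + 2 → (N : ℝ) ≤ ((σ 1).th w + q) * J + 2 →
        l' ≤ l → U' ≤ U → l ≤ N → U ≤ N →
        (∀ ω, A ω → Fnr l' U' N E (fra z ω) (frs z ω) (frt z ω) (a ω) (s ω) (t ω)) →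
        F.vdf (Pool.Agent.H49.Ent.cond F.p A True) sg l U N a s t
          (fun ω => (κ ω, (z ω, F.W ω))) ≤ ε * X * J) := by
  obtain ⟨ε₁, X₀, hε₁, hX₀, h⟩ := nat_unif hN hC hL (ε := ε / 2) (by positivity)
  refine ⟨min ε₁ (ε / 24), X₀, lt_min hε₁ (by positivity), hX₀, fun X hX hXX w hw => ?_⟩
  have h' := h X hX hXX
  obtain ⟨η, hη⟩ : ∃ η : ℝ, η = min ε₁ (ε / 24) * X := ⟨_, rfl⟩
  rw [← hη]
  have hη1 : η ≤ ε₁ * X := by
    rw [hη]
    exact mul_le_mul_of_nonneg_right (min_le_left _ _) hX.le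
  have hη2 : η ≤ ε * X / 24 := by
    rw [hη]
    have := mul_le_mul_of_nonneg_right (min_le_right ε₁ (ε / 24)) hX.le
    linarith only [this]
  obtain ⟨J₂, hJ₂⟩ := exists_nat_ge ((3 * Real.log 51 + 3 * Real.log 9) / (ε / 8 * X) + 1)
  have l51 : 0 < Real.log 51 := Real.log_pos (by norm_num)
  have l9 : 0 < Real.log 9 := Real.log_pos (by norm_num)
  refine Clp.mono (J₂ := J₂) ((h' w hw).and hC.evlaw) ?_
  rintro J hJ F A ⟨h1, hlaw⟩ sg hsg h0 z hz τ κ hκ a s t E hdet hE hlE l' U' l U N q hq e1 e2 e3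
    c1 c2 e4 e5 hcl
  have hJ' : (3 * Real.log 51 + 3 * Real.log 9) / (ε / 8 * X) + 1 ≤ (J : ℝ) :=
    hJ₂.trans (by exact_mod_cast hJ)
  have g1 : 0 ≤ (3 * Real.log 51 + 3 * Real.log 9) / (ε / 8 * X) := by positivity
  have hJ0 : (0 : ℝ) < J := by linarith only [hJ', g1]
  have hJc : 3 * Real.log 51 + 3 * Real.log 9 ≤ ε / 8 * X * J := by
    have : (3 * Real.log 51 + 3 * Real.log 9) / (ε / 8 * X) ≤ J := by linarith only [hJ']
    rw [div_le_iff₀ (by positivity)] at this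
    linarith only [this]
  have hz' : NL F A sg ⌊(w : ℝ) * J⌋₊ ⌊((σ 1).rot w - ε₁ * X) * J⌋₊ ⌊((σ 1).th w - ε₁ * X) * J⌋₊ z :=
    hz.mono (Nat.floor_le_floor (by nlinarith only [hη1])) (Nat.floor_le_floor (by nlinarith only [hη1]))
  have m1 := vdf_mono (σ := sg) (a := a) (s := s) (t := t) (N := N) hlaw c1 c2
    (fun ω => (κ ω, (z ω, F.W ω)))
  exact by
   have hb : ∀ ω, 0 < Pool.Agent.H49.Ent.cond F.p A True ω →
       |fra z ω| ≤ 8 ∧ |frs z ω| ≤ 8 ∧ |frt z ω| ≤ 8 := fun ω hω => hz.bd (ldm_mem hω)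
   have m2 := vdf_chg (σ := sg) (a := a) (s := s) (t := t) (a' := fra z) (s' := frs z)
     (t' := frt z) (r := l') (U := U') (N := N) (B := 8) (D := E) hlaw (by norm_num)
     hE (c1.trans e4) (c2.trans e5) hb (fun ω hω => hcl ω (ldm_mem hω))
     (fun ω => (κ ω, (z ω, F.W ω))) (by
       intro ω ω' hω hω' e
       have x1 := Prod.ext_iff.mp e
       have x2 := Prod.ext_iff.mp x1.2
       obtain ⟨y1, y2, y3⟩ := hdet ω ω' (ldm_mem hω) (ldm_mem hω') x1.1 x2.1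
       rw [Prod.ext_iff, Prod.ext_iff]
       exact ⟨y1, y2, y3⟩) (by
       intro ω ω' hω hω' e
       have x1 := Prod.ext_iff.mp e
       have x2 : z ω = z ω' := (Prod.ext_iff.mp x1.2).1
       simp only [fra, frs, frt]
       rw [x2])
   have m3 := h1 sg hsg h0 z hz' τ κ hκ l' U' N q hq e1 e2 e3 (c1.trans e4) (c2.trans e5)
   have n1 : Real.log (6 * 8 + 3) = Real.log 51 := by norm_num
   have n2 : Real.log (6 * E + 3) ≤ Real.log 9 + η * J := by
     calc Real.log (6 * E + 3) ≤ Real.log (9 * E) :=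
           Real.log_le_log (by linarith only [hE]) (by linarith only [hE])
       _ = Real.log 9 + Real.log E := Real.log_mul (by norm_num) (by linarith only [hE])
       _ ≤ _ := by linarith only [hlE]
   rw [n1] at m2
   push_cast at m2
   have n3 : 3 * (η * J) ≤ ε / 8 * X * J := by
     have := mul_le_mul_of_nonneg_right hη2 hJ0.le
     nlinarith only [this]
   have hXJ : 0 ≤ ε * X * J := by positivity
   linarith only [l51, l9, hJc, m1, m2, m3, n2, n3]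

/-- **Two-point rule with Principle M**, general form: side labels `κ₂` of the coarse window (free)
and `κ` of the fine window (paid together with the frame). The frame is near the natural labels of
both windows at the levels of the boxes. -/
theorem ld2_core (hN : NATStmt) (hC : Cs S a R h₁ i₀ c s₂ r D σ)
    (hL : Loc S i₀ c s₂ r D σ act K W v₁ t e₁ Q₀ P g v₀ v ρ a₀ α) {ε : ℝ} (hε : 0 < ε) :
    ∃ ε₀ X₀ : ℝ, 0 < ε₀ ∧ 0 < X₀ ∧ ∀ X : ℝ, 0 < X → X ≤ X₀ →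
    ∀ w₁ w₂ : ℚ, |(w₁ : ℝ) - W g| ≤ X → |(w₂ : ℝ) - W g| ≤ X → w₂ ≤ w₁ →
    Clp S (fun J F A => ∀ sg : Fin 3 → Fin 3, Function.Bijective sg → sg 0 = i₀ →
      ∀ z₁ z₂ : F.Ω → Pln,
      NL F A sg ⌊(w₁ : ℝ) * J⌋₊ ⌊((σ 1).rot w₁ - ε₀ * X) * J⌋₊ ⌊((σ 1).th w₁ - ε₀ * X) * J⌋₊ z₁ →
      NL F A sg ⌊(w₂ : ℝ) * J⌋₊ ⌊((σ 1).rot w₂ - ε₀ * X) * J⌋₊ ⌊((σ 1).th w₂ - ε₀ * X) * J⌋₊ z₂ →
      ∀ (τ₂ τ : Type) (κ₂ : F.Ω → τ₂) (κ : F.Ω → τ), SL F A ⌊(w₂ : ℝ) * J⌋₊ κ₂ →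
        SL F A ⌊(w₁ : ℝ) * J⌋₊ κ →
      ∀ (a s t : F.Ω → ℝ) (E : ℝ), (∀ ω ω', A ω → A ω' → κ₂ ω = κ₂ ω' → κ ω = κ ω' →
        z₁ ω = z₁ ω' → z₂ ω = z₂ ω' → a ω = a ω' ∧ s ω = s ω' ∧ t ω = t ω') →
      (∀ ω, A ω → |a ω| ≤ 8 ∧ |s ω| ≤ 8 ∧ |t ω| ≤ 8) →
      1 ≤ E → Real.log E ≤ ε₀ * X * J →
      ∀ (n m : ℕ) (dd : ℝ) (r U N : ℕ → ℕ) (q₁ q₂ : ℕ → ℝ),
        (w₁ : ℝ) - w₂ ≤ dd → ((w₁ : ℝ) + (σ 1).rot w₁) - (w₂ + (σ 1).rot w₂) ≤ dd →
        (∀ k < n, |q₁ k - (P - g)| ≤ X ∧ ((w₁ : ℝ) + q₁ k) * J ≤ r k ∧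
          (N k : ℝ) ≤ ((σ 1).th w₁ + q₁ k) * J) →
        (∀ k < n, |q₂ k - (P - g)| ≤ X ∧ (r k : ℝ) ≤ ((w₂ : ℝ) + q₂ k) * J ∧
          ((w₂ : ℝ) + (σ 1).rot w₂ + q₂ k) * J ≤ U k ∧ (N k : ℝ) ≤ ((σ 1).th w₂ + q₂ k) * J ∧
          U k + (dd + X) * J ≤ N k) →
        (∀ k, k + m < n → (q₂ k + dd) * J + 2 ≤ q₂ (k + m) * J ∧ N k ≤ N (k + m)) →
        (∀ k < n, ∀ ω, A ω →
          Fnr ⌊((w₁ : ℝ) + q₁ k) * J⌋₊ ⌊((w₁ : ℝ) + (σ 1).rot w₁ + q₁ k) * J⌋₊ (N k) E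
            (fra z₁ ω) (frs z₁ ω) (frt z₁ ω) (a ω) (s ω) (t ω) ∧
          Fnr ⌊((w₂ : ℝ) + q₂ k) * J⌋₊ ⌊((w₂ : ℝ) + (σ 1).rot w₂ + q₂ k) * J⌋₊ (N k) E
            (fra z₂ ω) (frs z₂ ω) (frt z₂ ω) (a ω) (s ω) (t ω)) →
        ∃ loss : ℕ → ℝ, (∀ k, 0 ≤ loss k) ∧
          ∑ k ∈ range n, loss k ≤ m * CH (Pool.Agent.H49.Ent.cond F.p A True)
            (fun ω => (κ ω, (a ω, s ω, t ω))) (fun ω => (κ₂ ω, (z₂ ω, F.W ω))) ∧
          ∀ k < n, F.vdf (Pool.Agent.H49.Ent.cond F.p A True) sg (r k) (U k) (N k) a s t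
            (fun ω => ((κ ω, (a ω, s ω, t ω)), (κ₂ ω, (z₂ ω, F.W ω)))) ≤
            ε * X * J + loss k) := by
  obtain ⟨X₁, hX₁, hr⟩ := hL.radz
  obtain ⟨ε₁, X₂, hε₁, hX₂, hU⟩ := nat_unif hN hC hL (ε := ε / 8) (by positivity)
  obtain ⟨ε₂, X₃, hε₂, hX₃, hV⟩ := nat_lv hN hC hL (ε := ε / 8) (by positivity)
  obtain ⟨e₀, he₀⟩ : ∃ e₀ : ℝ, e₀ = min (min ε₁ (ε₂ / 2)) (ε / 72) := ⟨_, rfl⟩
  have he0 : 0 < e₀ := by
    rw [he₀]
    exact lt_min (lt_min hε₁ (by positivity)) (by positivity)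
  have he1 : e₀ ≤ ε₁ := by
    rw [he₀]
    exact (min_le_left _ _).trans (min_le_left _ _)
  have he2 : e₀ ≤ ε₂ / 2 := by
    rw [he₀]
    exact (min_le_left _ _).trans (min_le_right _ _)
  have he3 : e₀ ≤ ε / 72 := by
    rw [he₀]
    exact min_le_right _ _
  refine ⟨e₀, min (min X₁ X₂) X₃, he0, lt_min (lt_min hX₁ hX₂) hX₃,
    fun X hX hXX w₁ w₂ hw1 hw2 hw => ?_⟩
  have hX1 : X ≤ X₁ := hXX.trans ((min_le_left _ _).trans (min_le_left _ _))
  have hX2 : X ≤ X₂ := hXX.trans ((min_le_left _ _).trans (min_le_right _ _))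
  have hX3 : X ≤ X₃ := hXX.trans (min_le_right _ _)
  obtain ⟨hw10, hw11, hPg⟩ := hr w₁ (hw1.trans hX1)
  obtain ⟨hw20, hw21, -⟩ := hr w₂ (hw2.trans hX1)
  have hrot1 := hC.rot_nn hw10 hw11
  have hrot2 := hC.rot_nn hw20 hw21
  have hw10' : (0 : ℝ) ≤ w₁ := by exact_mod_cast hw10
  have hw20' : (0 : ℝ) ≤ w₂ := by exact_mod_cast hw20
  have hw11' : (w₁ : ℝ) ≤ 1 := by exact_mod_cast hw11
  have hw' : (w₂ : ℝ) ≤ w₁ := by exact_mod_cast hw
  have k1 := K1_nonneg (show (1 : ℝ) ≤ 8 by norm_num)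
  exact by
   have k2 := K2_nonneg (show (1 : ℝ) ≤ 8 by norm_num)
   have l195 : 0 < Real.log 195 := Real.log_pos (by norm_num)
   have l27 : 0 < Real.log 27 := Real.log_pos (by norm_num)
   have l4 : 0 < Real.log 4 := Real.log_pos (by norm_num)
   obtain ⟨CC, hCC⟩ : ∃ CC : ℝ, CC = 4 * K1 8 + 2 * K2 8 + 3 * Real.log 195 + 3 * Real.log 27 := ⟨_, rfl⟩
   have hCC0 : 0 ≤ CC := by rw [hCC]; positivity
   obtain ⟨J₂, hJ₂⟩ := exists_nat_ge (CC / (ε / 8 * X) + 2 / X + Real.log 4 / (e₀ * X) + 1)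
   refine Clp.mono (J₂ := J₂) ((((hU X hX hX2 w₂ hw2).and (hV X hX hX3 w₁ hw1))).and hC.evlaw) ?_
   rintro J hJ F A ⟨⟨hu, hv⟩, hlaw⟩ sg hsg h0 z₁ z₂ hz1 hz2 τ₂ τ κ₂ κ hκ2 hκ a s t E hdet hbd hE hlE
     n m dd r U N q₁ q₂ hd1 hd2 h1 h2 h3 hF
   have hJ' : CC / (ε / 8 * X) + 2 / X + Real.log 4 / (e₀ * X) + 1 ≤ (J : ℝ) :=
     hJ₂.trans (by exact_mod_cast hJ)
   have g1 : 0 ≤ CC / (ε / 8 * X) := by positivity
   have g2 : 0 ≤ 2 / X := by positivity
   have g3 : 0 ≤ Real.log 4 / (e₀ * X) := by positivity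
   have hJ0 : (0 : ℝ) < J := by linarith only [hJ', g1, g2, g3]
   have hJc : CC ≤ ε / 8 * X * J := by
     have : CC / (ε / 8 * X) ≤ J := by linarith only [hJ', g2, g3]
     rw [div_le_iff₀ (by positivity)] at this
     linarith only [this]
   have hJ2 : 2 ≤ X * J := by
     have : 2 / X ≤ J := by linarith only [hJ', g1, g3]
     rw [div_le_iff₀ hX] at this
     linarith only [this]
   have hJ4 : Real.log 4 ≤ e₀ * X * J := by
     have : Real.log 4 / (e₀ * X) ≤ J := by linarith only [hJ', g1, g2]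
     rw [div_le_iff₀ (by positivity)] at this
     linarith only [this]
   have hXJ : 0 < X * J := by positivity
   have hdd : 0 ≤ dd := by linarith only [hw', hd1]
   exact by
    have hddJ : 0 ≤ dd * J := by positivity
    obtain ⟨δ, hδ⟩ : ∃ δ : ℕ, δ = ⌈dd * J⌉₊ + 1 := ⟨_, rfl⟩
    have δ1 : dd * J + 1 ≤ δ := by
      rw [hδ]
      push_cast
      linarith only [Nat.le_ceil (dd * J)]
    have δ2 : (δ : ℝ) ≤ dd * J + 2 := by
      rw [hδ]
      push_cast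
      linarith only [hddJ, Nat.ceil_lt_add_one hddJ]
    obtain ⟨r₂, hr₂⟩ : ∃ r₂ : ℕ → ℕ, r₂ = fun k => ⌊((w₂ : ℝ) + q₂ k) * J⌋₊ := ⟨_, rfl⟩
    obtain ⟨U₂, hU₂⟩ : ∃ U₂ : ℕ → ℕ, U₂ = fun k => ⌊((w₂ : ℝ) + (σ 1).rot w₂ + q₂ k) * J⌋₊ := ⟨_, rfl⟩
    have hq2 : ∀ k < n, 0 ≤ q₂ k := fun k hk => by
      have := (abs_le.1 (h2 k hk).1).1
      linarith only [hX1, hPg, this]
    have hq1 : ∀ k < n, 0 ≤ q₁ k := fun k hk => by
      have := (abs_le.1 (h1 k hk).1).1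
      linarith only [hX1, hPg, this]
    have hq12 : ∀ k < n, q₁ k + (w₁ - w₂) ≤ q₂ k := fun k hk => by
      have b1 := (h1 k hk).2.1
      have b2 := (h2 k hk).2.1
      have b3 : ((w₁ : ℝ) + q₁ k) * J ≤ ((w₂ : ℝ) + q₂ k) * J := b1.trans b2
      have := le_of_mul_le_mul_right b3 hJ0
      linarith only [this]
    have fr2 : ∀ k < n, (r₂ k : ℝ) ≤ ((w₂ : ℝ) + q₂ k) * J ∧ ((w₂ : ℝ) + q₂ k) * J < r₂ k + 1 := by
      intro k hk
      rw [hr₂]
      have := hq2 k hk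
      exact ⟨Nat.floor_le (by positivity), Nat.lt_floor_add_one _⟩
    have fU2 : ∀ k < n, (U₂ k : ℝ) ≤ ((w₂ : ℝ) + (σ 1).rot w₂ + q₂ k) * J ∧
        ((w₂ : ℝ) + (σ 1).rot w₂ + q₂ k) * J < U₂ k + 1 := by
      intro k hk
      rw [hU₂]
      have := hq2 k hk
      exact ⟨Nat.floor_le (by positivity), Nat.lt_floor_add_one _⟩
    -- the side labels of the fine window
    exact by
     have hs1 : ⌊(w₁ : ℝ) * J⌋₊ ≤ J := by
       have : (w₁ : ℝ) * J ≤ ((J : ℕ) : ℝ) := by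
         have := mul_le_mul_of_nonneg_right hw11' hJ0.le
         linarith only [this]
       exact Nat.floor_le_of_le this
     have hs2 : ⌊(w₂ : ℝ) * J⌋₊ ≤ ⌊(w₁ : ℝ) * J⌋₊ :=
       Nat.floor_le_floor (mul_le_mul_of_nonneg_right hw' hJ0.le)
     have hsl : SL F A ⌊(w₁ : ℝ) * J⌋₊ (fun ω => (κ ω, (κ₂ ω, z₂ ω))) :=
       hκ.pair ((hκ2.mono hs2 hs1).pair (hz2.sl.mono hs2 hs1))
     have hdet' : ∀ ω ω', A ω → A ω' → (κ ω, (κ₂ ω, z₂ ω)) = (κ ω', (κ₂ ω', z₂ ω')) → z₁ ω = z₁ ω' →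
         a ω = a ω' ∧ s ω = s ω' ∧ t ω = t ω' := by
       intro ω ω' hω hω' e e'
       have x1 := Prod.ext_iff.mp e
       have x2 := Prod.ext_iff.mp x1.2
       exact hdet ω ω' hω hω' x2.1 x1.1 e' x2.2
     have hdc : Det (Pool.Agent.H49.Ent.cond F.p A True)
         (fun ω => ((κ ω, (κ₂ ω, z₂ ω)), (z₁ ω, F.W ω)))
         (fun ω => ((κ ω, (a ω, s ω, t ω)), (κ₂ ω, (z₂ ω, F.W ω)))) := by
       intro ω ω' hω hω' e
       have x1 := Prod.ext_iff.mp e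
       have x2 := Prod.ext_iff.mp x1.1
       have x3 := Prod.ext_iff.mp x2.2
       have x4 := Prod.ext_iff.mp x1.2
       obtain ⟨y1, y2, y3⟩ := hdet' ω ω' (ldm_mem hω) (ldm_mem hω') x1.1 x4.1
       exact Prod.ext (Prod.ext x2.1 (Prod.ext y1 (Prod.ext y2 y3)))
         (Prod.ext x3.1 (Prod.ext x3.2 x4.2))
     obtain ⟨p, hp⟩ : ∃ p : F.Ω → ℝ, p = Pool.Agent.H49.Ent.cond F.p A True := ⟨_, rfl⟩
     have hmem : ∀ ω, 0 < p ω → A ω := fun ω hω => ldm_mem (by rw [← hp]; exact hω)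
     rw [← hp] at hlaw hdc
     have hb : ∀ ω, 0 < p ω → |a ω| ≤ 8 ∧ |s ω| ≤ 8 ∧ |t ω| ≤ 8 := fun ω hω => hbd ω (hmem ω hω)
     exact by
      have hb2 : ∀ ω, 0 < p ω → |fra z₂ ω| ≤ 8 ∧ |frs z₂ ω| ≤ 8 ∧ |frt z₂ ω| ≤ 8 :=
        fun ω hω => hz2.bd (hmem ω hω)
      have hz1' : NL F A sg ⌊(w₁ : ℝ) * J⌋₊ ⌊((σ 1).rot w₁ - ε₂ * X) * J⌋₊
          ⌊((σ 1).th w₁ - ε₂ * X) * J⌋₊ z₁ :=
        hz1.mono (Nat.floor_le_floor (by nlinarith only [hε, hε₂, k1, k2, hCC, hJc, he0, l195, l27, he2])) (Nat.floor_le_floor (by nlinarith only [hε, hε₂, k1, k2, hCC, hJc, he0, l195, l27, he2]))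
      have hz2' : NL F A sg ⌊(w₂ : ℝ) * J⌋₊ ⌊((σ 1).rot w₂ - ε₁ * X) * J⌋₊
          ⌊((σ 1).th w₂ - ε₁ * X) * J⌋₊ z₂ :=
        hz2.mono (Nat.floor_le_floor (by nlinarith only [hε, hε₁, hCC, he0, he1, k1, k2, l195, l27, hJc])) (Nat.floor_le_floor (by nlinarith only [hε, hε₁, hCC, he0, he1, k1, k2, l195, l27, hJc]))
      have hlE2 : Real.log E ≤ ε₂ * X * J := by nlinarith only [hε, hlE, hε₂, k1, k2, hCC, hJc, he0, l195, l27, he2]
      have hlE4 : Real.log (4 * E) ≤ ε₂ * X * J := by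
        rw [Real.log_mul (by norm_num) (by linarith only [hE])]
        nlinarith only [hε, hlE, hJ4, hε₂, hCC, he0, he2, k1, k2, l195, l27, hJc]
      -- levels
      have lev : ∀ k < n, r k ≤ r₂ k ∧ r₂ k ≤ U₂ k ∧ U₂ k ≤ U k ∧ U₂ k + δ ≤ N k ∧ r k ≤ N k ∧
          U k ≤ N k := by
        intro k hk
        obtain ⟨b1, b2⟩ := fr2 k hk
        obtain ⟨b3, b4⟩ := fU2 k hk
        obtain ⟨-, c1, c2, c3, c4⟩ := h2 k hk
        have d1 : r k ≤ r₂ k := by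
          rw [hr₂]
          exact Nat.le_floor c1
        have d2 : r₂ k ≤ U₂ k := by
          rw [hr₂, hU₂]
          refine Nat.floor_le_floor (mul_le_mul_of_nonneg_right ?_ hJ0.le)
          linarith only [hrot2]
        have d3 : U₂ k ≤ U k := by
          rw [hU₂]
          exact Nat.floor_le_of_le c2
        have d4 : ((U k + δ : ℕ) : ℝ) ≤ (N k : ℕ) := by
          push_cast
          linarith only [hJ2, δ2, c4]
        have d5 : U k + δ ≤ N k := by exact_mod_cast d4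
        exact ⟨d1, d2, d3, by omega, by omega, by omega⟩
      exact by
       obtain ⟨κM, hκM⟩ : ∃ κM : F.Ω → τ × ℝ × ℝ × ℝ, κM = fun ω => (κ ω, (a ω, s ω, t ω)) := ⟨_, rfl⟩
       obtain ⟨Θ, hΘ⟩ : ∃ Θ : F.Ω → τ₂ × Pln × _, Θ = fun ω => (κ₂ ω, (z₂ ω, F.W ω)) := ⟨_, rfl⟩
       have hΘκ : (fun ω => ((κ ω, (a ω, s ω, t ω)), (κ₂ ω, (z₂ ω, F.W ω)))) =
           fun ω => (κM ω, Θ ω) := by rw [hκM, hΘ]
       rw [← hp, hΘκ, ← hκM, ← hΘ]
       rw [hΘκ] at hdc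
       have hf2 : Fd p Θ (fra z₂) (frs z₂) (frt z₂) := by
         intro ω ω' hω hω' e
         rw [hΘ] at e
         have x1 : z₂ ω = z₂ ω' := (Prod.ext_iff.mp (Prod.ext_iff.mp e).2).1
         simp only [fra, frs, frt]
         rw [x1]
       have hf' : Fd p (fun ω => (κM ω, Θ ω)) a s t := by
         intro ω ω' hω hω' e
         have x1 := (Prod.ext_iff.mp e).1
         rw [hκM] at x1
         exact (Prod.ext_iff.mp x1).2
       obtain ⟨g, hg⟩ : ∃ g : ℕ → ℝ, g = fun k => CH p κM (fun ω =>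
           (F.sbx sg (r₂ k) (U₂ k) (N k) (fra z₂) (frs z₂) (frt z₂) ω, Θ ω)) := ⟨_, rfl⟩
       obtain ⟨g', hg'⟩ : ∃ g' : ℕ → ℝ, g' = fun k => CH p κM (fun ω =>
           (F.sbx sg (r₂ k + δ) (U₂ k + δ) (N k) (fra z₂) (frs z₂) (frt z₂) ω, Θ ω)) := ⟨_, rfl⟩
       have hgg : ∀ k, g' k ≤ g k := by
         intro k
         rw [hg, hg']
         exact CH_mono_cond hlaw.nonneg fun ω ω' _ _ e => Prod.ext (sbx_lift (Nat.le_add_right _ _)
           (Nat.le_add_right _ _) le_rfl (Prod.ext_iff.mp e).1) (Prod.ext_iff.mp e).2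
       refine ⟨fun k => g k - g' k, fun k => by linarith only [hgg, hgg k], ?_, ?_⟩
       · rw [hg, hg']
         refine prinM_mod (σ := sg) (a := fra z₂) (s := frs z₂) (t := frt z₂) hlaw r₂ U₂ N
           (fun k => r₂ k + δ) (fun k => U₂ k + δ) Θ κM ?_ ?_ fun k hk => (h3 k hk).2
         · intro k hk
           obtain ⟨b1, b2⟩ := fr2 k (by omega)
           obtain ⟨b3, b4⟩ := fr2 (k + m) hk
           have b5 := (h3 k hk).1
           rw [hr₂]
           refine Nat.le_floor ?_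
           push_cast
           rw [hr₂] at b1
           have e1 : ((w₂ : ℝ) + q₂ (k + m)) * J = w₂ * J + q₂ (k + m) * J := by ring
           have e2 : ((w₂ : ℝ) + q₂ k) * J = w₂ * J + q₂ k * J := by ring
           have e3 : (q₂ k + dd) * J = q₂ k * J + dd * J := by ring
           simp only at b1
           linarith only [δ2, b1, b5]
         · intro k hk
           obtain ⟨b1, b2⟩ := fU2 k (by omega)
           obtain ⟨b3, b4⟩ := fU2 (k + m) hk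
           have b5 := (h3 k hk).1
           rw [hU₂]
           refine Nat.le_floor ?_
           push_cast
           rw [hU₂] at b1
           have e1 : ((w₂ : ℝ) + (σ 1).rot w₂ + q₂ (k + m)) * J =
             (w₂ + (σ 1).rot w₂) * J + q₂ (k + m) * J := by ring
           have e2 : ((w₂ : ℝ) + (σ 1).rot w₂ + q₂ k) * J = (w₂ + (σ 1).rot w₂) * J + q₂ k * J := by ring
           have e3 : (q₂ k + dd) * J = q₂ k * J + dd * J := by ring
           simp only at b1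
           linarith only [δ2, b1, b5]
       · intro k hk
         obtain ⟨d1, d2, d3, d4, d5, d6⟩ := lev k hk
         have f1 := fun ω hω => (hF k hk ω hω).1
         have f2 := fun ω hω => (hF k hk ω hω).2
         obtain ⟨b1, b2⟩ := fr2 k hk
         obtain ⟨b3, b4⟩ := fU2 k hk
         obtain ⟨p1, p2, p3⟩ := h1 k hk
         obtain ⟨s1, s2, s3, s4, s5⟩ := h2 k hk
         have t1 := hq12 k hk
         have t2 := hq1 k hk
         have t3 := hq2 k hk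
         -- two-point rule
         have m1 := vdf_two (σ := sg) (a := a) (s := s) (t := t) (r := r k) (U := U k) (N := N k)
           (r₂ := r₂ k) (U₂ := U₂ k) (r₁ := r k) (U₁ := N k) hlaw hsg (show (1 : ℝ) ≤ 8 by norm_num)
           d5 d6 d1 (by omega) d3 le_rfl le_rfl hb (fun ω => (κM ω, Θ ω))
         -- Principle M
         have m2 := vdf_fine (σ := sg) (a := fra z₂) (s := frs z₂) (t := frt z₂) (a' := a) (s' := s)
           (t' := t) (r := r₂ k) (U := U₂ k) (N := N k) (δ := δ) (D := E) hlaw hsg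
           (show (1 : ℝ) ≤ 8 by norm_num) hE (by omega) d4 hb2 hb (fun ω hω => by
             have := f2 ω (hmem ω hω)
             rw [hr₂, hU₂]
             exact this) Θ hf2 κM hf'
         have m3 := hu sg hsg h0 z₂ hz2' τ₂ κ₂ hκ2 (r₂ k) (U₂ k) (N k) (q₂ k) s1 (by linarith only [b2])
           (by linarith only [b4]) (by linarith only [s4]) (by omega) (by omega)
         rw [← hp, ← hΘ] at m3
         -- the fine box
         have m4 := vdf_cond (σ := sg) (a := a) (s := s) (t := t) (r := r₂ k + δ) (U := U₂ k + δ)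
           (N := N k) hlaw (fun ω => (κM ω, Θ ω)) (fun ω => ((κ ω, (κ₂ ω, z₂ ω)), (z₁ ω, F.W ω))) hdc
         have u1 : ((w₁ : ℝ) + q₂ k) * J ≤ r₂ k + δ := by
           have : (w₁ : ℝ) * J ≤ (w₂ + dd) * J := mul_le_mul_of_nonneg_right (by linarith only [hd1]) hJ0.le
           linarith only [δ1, b2, this]
         have u2 : ((w₁ : ℝ) + (σ 1).rot w₁ + q₂ k) * J ≤ U₂ k + δ := by
           have : ((w₁ : ℝ) + (σ 1).rot w₁) * J ≤ (w₂ + (σ 1).rot w₂ + dd) * J :=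
             mul_le_mul_of_nonneg_right (by linarith only [hd2]) hJ0.le
           linarith only [δ1, b4, this]
         obtain ⟨x1, hx1⟩ : ∃ x : ℕ, x = ⌊((w₁ : ℝ) + q₂ k) * J⌋₊ := ⟨_, rfl⟩
         obtain ⟨x2, hx2⟩ : ∃ x : ℕ, x = ⌊((w₁ : ℝ) + (σ 1).rot w₁ + q₂ k) * J⌋₊ := ⟨_, rfl⟩
         obtain ⟨y1, hy1⟩ : ∃ x : ℕ, x = ⌊((w₁ : ℝ) + q₁ k) * J⌋₊ := ⟨_, rfl⟩
         obtain ⟨y2, hy2⟩ : ∃ x : ℕ, x = ⌊((w₁ : ℝ) + (σ 1).rot w₁ + q₁ k) * J⌋₊ := ⟨_, rfl⟩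
         have fx1 : (x1 : ℝ) ≤ ((w₁ : ℝ) + q₂ k) * J ∧ ((w₁ : ℝ) + q₂ k) * J < x1 + 1 := by
           rw [hx1]
           exact ⟨Nat.floor_le (by positivity), Nat.lt_floor_add_one _⟩
         have fx2 : (x2 : ℝ) ≤ ((w₁ : ℝ) + (σ 1).rot w₁ + q₂ k) * J ∧
             ((w₁ : ℝ) + (σ 1).rot w₁ + q₂ k) * J < x2 + 1 := by
           rw [hx2]
           exact ⟨Nat.floor_le (by positivity), Nat.lt_floor_add_one _⟩
         have fy1 : (y1 : ℝ) ≤ ((w₁ : ℝ) + q₁ k) * J ∧ ((w₁ : ℝ) + q₁ k) * J < y1 + 1 := by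
           rw [hy1]
           exact ⟨Nat.floor_le (by positivity), Nat.lt_floor_add_one _⟩
         have fy2 : (y2 : ℝ) ≤ ((w₁ : ℝ) + (σ 1).rot w₁ + q₁ k) * J ∧
             ((w₁ : ℝ) + (σ 1).rot w₁ + q₁ k) * J < y2 + 1 := by
           rw [hy2]
           exact ⟨Nat.floor_le (by positivity), Nat.lt_floor_add_one _⟩
         rw [← hy1, ← hy2] at f1
         have hqJ : q₁ k * J + (w₁ - w₂) * J ≤ q₂ k * J := by
           have := mul_le_mul_of_nonneg_right t1 hJ0.le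
           linarith only [p2, s2]
         have hwJ : 0 ≤ ((w₁ : ℝ) - w₂) * J := mul_nonneg (by linarith only [hw']) hJ0.le
         have hthN : (N k : ℝ) ≤ ((σ 1).th w₁ + q₂ k) * J := by
           have e1 : ((σ 1).th w₁ + q₁ k) * J = (σ 1).th w₁ * J + q₁ k * J := by ring
           have e2 : ((σ 1).th w₁ + q₂ k) * J = (σ 1).th w₁ * J + q₂ k * J := by ring
           linarith only [p2, p3, s2, hwJ]
         have v1 : x1 ≤ r₂ k + δ := by
           rw [hx1]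
           exact Nat.floor_le_of_le (by push_cast; exact u1)
         have v2 : x2 ≤ U₂ k + δ := by
           rw [hx2]
           exact Nat.floor_le_of_le (by push_cast; exact u2)
         have m5 := hv sg hsg h0 z₁ hz1' _ _ hsl a s t (4 * E) hdet' (by linarith only [hE]) hlE4 x1 x2 (r₂ k + δ)
           (U₂ k + δ) (N k) (q₂ k) s1 (by linarith only [fx1]) (by linarith only [fx2]) (by linarith only [p2, p3, s2, hwJ]) v1 v2 (by omega) d4
           (fun ω hω => by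
             refine fnr_lvl (by linarith only [hE]) (f1 ω hω) ?_ ?_ ?_
             · have : ((y1 + x2 : ℕ) : ℝ) ≤ ((x1 + y2 + 2 : ℕ) : ℝ) := by
                 push_cast
                 have e1 : ((w₁ : ℝ) + q₁ k) * J = w₁ * J + q₁ k * J := by ring
                 have e2 : ((w₁ : ℝ) + q₂ k) * J = w₁ * J + q₂ k * J := by ring
                 have e3 : ((w₁ : ℝ) + (σ 1).rot w₁ + q₂ k) * J =
                   w₁ * J + (σ 1).rot w₁ * J + q₂ k * J := by ring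
                 have e4 : ((w₁ : ℝ) + (σ 1).rot w₁ + q₁ k) * J =
                   w₁ * J + (σ 1).rot w₁ * J + q₁ k * J := by ring
                 linarith only [fx1, fx2, fy1, fy2]
               exact_mod_cast this
             · have : ((y2 + N k : ℕ) : ℝ) ≤ ((x2 + N k + 2 : ℕ) : ℝ) := by
                 push_cast
                 have e3 : ((w₁ : ℝ) + (σ 1).rot w₁ + q₂ k) * J =
                   w₁ * J + (σ 1).rot w₁ * J + q₂ k * J := by ring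
                 have e4 : ((w₁ : ℝ) + (σ 1).rot w₁ + q₁ k) * J =
                   w₁ * J + (σ 1).rot w₁ * J + q₁ k * J := by ring
                 linarith only [p2, s2, fx2, fy2, hwJ]
               exact_mod_cast this
             · have : ((y1 + N k : ℕ) : ℝ) ≤ ((x1 + N k + 2 : ℕ) : ℝ) := by
                 push_cast
                 have e1 : ((w₁ : ℝ) + q₁ k) * J = w₁ * J + q₁ k * J := by ring
                 have e2 : ((w₁ : ℝ) + q₂ k) * J = w₁ * J + q₂ k * J := by ring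
                 linarith only [p2, s2, fx1, fy1, hwJ]
               exact_mod_cast this)
         rw [← hp] at m5
         -- the rows of the first coordinate
         have m6 := vdf_cond (σ := sg) (a := a) (s := s) (t := t) (r := r k) (U := N k)
           (N := N k) hlaw (fun ω => (κM ω, Θ ω)) (fun ω => ((κ ω, (κ₂ ω, z₂ ω)), (z₁ ω, F.W ω))) hdc
         have v3 : y1 ≤ r k := by
           rw [hy1]
           exact Nat.floor_le_of_le p2
         have v4 : y2 ≤ N k := by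
           rw [hy2]
           refine Nat.floor_le_of_le ?_
           have e1 : ((w₁ : ℝ) + (σ 1).rot w₁ + q₁ k) * J = (w₁ + (σ 1).rot w₁) * J + q₁ k * J := by ring
           have e2 : ((w₂ : ℝ) + (σ 1).rot w₂ + q₂ k) * J = (w₂ + (σ 1).rot w₂) * J + q₂ k * J := by ring
           have e3 : ((w₁ : ℝ) + (σ 1).rot w₁) * J ≤ (w₂ + (σ 1).rot w₂ + dd) * J :=
             mul_le_mul_of_nonneg_right (by linarith only [hd2]) hJ0.le
           linarith only [hJ2, p2, s2, s3, s5, hwJ, e3]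
         have m7 := hv sg hsg h0 z₁ hz1' _ _ hsl a s t E hdet' hE hlE2 y1 y2 (r k) (N k) (N k) (q₁ k) p1
           (by linarith only [fy1]) (by linarith only [fy2]) (by linarith only [p3]) v3 v4 d5 le_rfl (fun ω hω => f1 ω hω)
         rw [← hp] at m7
         -- constants
         have n2 : Real.log (6 * E + 3) ≤ Real.log 27 + e₀ * X * J := by
           calc Real.log (6 * E + 3) ≤ Real.log (27 * E) :=
                 Real.log_le_log (by linarith only [hE]) (by linarith only [hE])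
             _ = Real.log 27 + Real.log E := Real.log_mul (by norm_num) (by linarith only [hE])
             _ ≤ _ := by linarith only [hlE]
         have n3 : Real.log (6 * (E + E * E) + 3) ≤ Real.log 195 + 2 * (e₀ * X * J) := by
           calc Real.log (6 * (E + E * E) + 3) ≤ Real.log (195 * (E * E)) :=
                 Real.log_le_log (by nlinarith only [hE]) (by nlinarith only [hE])
             _ = Real.log 195 + (Real.log E + Real.log E) := by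
                 rw [Real.log_mul (by norm_num) (by nlinarith only [hE]), Real.log_mul (by linarith only [hE]) (by linarith only [hE])]
             _ ≤ _ := by linarith only [hlE]
         push_cast at m2
         have n4 : 9 * (e₀ * X * J) ≤ ε / 8 * X * J := by
           have : e₀ * (X * J) ≤ ε / 72 * (X * J) := mul_le_mul_of_nonneg_right he3 hXJ.le
           linarith only [this]
         have m2' : F.vdf p sg (r₂ k) (U₂ k) (N k) a s t (fun ω => (κM ω, Θ ω)) ≤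
             F.vdf p sg (r₂ k) (U₂ k) (N k) (fra z₂) (frs z₂) (frt z₂) Θ +
             F.vdf p sg (r₂ k + δ) (U₂ k + δ) (N k) a s t (fun ω => (κM ω, Θ ω)) + (g k - g' k) +
             (3 * K1 8 + K2 8 + 3 * Real.log (6 * (E + E * E) + 3) + 3 * Real.log (6 * E + 3)) := by
           rw [hg, hg']
           linarith only [m2]
         have hXJ' : 0 ≤ ε * X * J := by positivity
         linarith only [l4, hCC, hJc, hJ4, m1, m3, m4, m5, m6, m7, n2, n3, n4, m2']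

end cls

end Pool.S6C
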