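import Pool.Agent.H23.S6E.Ld3

/-!
# LEMMA D: two windows
-/

set_option autoImplicit false

namespace Pool.S6C

open Finset Real
open Pool.Agent.H49.Ent Pool.Agent.H32.Dense Pool.STK Pool.KA Pool.KSAT Pool.K2S Pool.PB Pool.KS6
  Pool.Sel51 Pool.KA.Vd

/-- Frames which are near at the natural precisions are near at the levels of the boxes. -/
theorem Fcl.lvl {J : ℕ} {F : Fam 3 J} {A : F.Ω → Prop} {w p G E q : ℝ} {z : F.Ω → Pln}
    {a s t : F.Ω → ℝ} {N : ℕ} (h : Fcl F A w p G E z a s t) (hE : 0 ≤ E) (hw : 0 ≤ w) (hp : 0 ≤ p)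
    (hq : 0 ≤ q) (hN : (N : ℝ) ≤ (G + q) * J) (ω : F.Ω) (hω : A ω) :
    Fnr ⌊(w + q) * J⌋₊ ⌊(p + q) * J⌋₊ N (4 * E) (fra z ω) (frs z ω) (frt z ω) (a ω) (s ω)
      (t ω) := by
  have hJ : (0 : ℝ) ≤ J := Nat.cast_nonneg J
  have a1 := Nat.floor_le (show 0 ≤ w * J by positivity)
  have a2 := Nat.floor_le (show 0 ≤ (w + q) * J by positivity)
  have a3 := Nat.floor_le (show 0 ≤ p * J by positivity)
  have a4 := Nat.floor_le (show 0 ≤ (p + q) * J by positivity)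
  have b2 := Nat.lt_floor_add_one ((w + q) * (J : ℝ))
  have b3 := Nat.lt_floor_add_one (p * (J : ℝ))
  have b4 := Nat.lt_floor_add_one ((p + q) * (J : ℝ))
  have b5 := Nat.lt_floor_add_one (G * (J : ℝ))
  have e1 : (w + q) * J = w * J + q * J := by ring
  have e2 : (p + q) * J = p * J + q * J := by ring
  have e3 : (G + q) * J = G * J + q * J := by ring
  refine fnr_lvl hE (h ω hω) ?_ ?_ ?_
  · have : ((⌊w * J⌋₊ + ⌊(p + q) * J⌋₊ : ℕ) : ℝ) ≤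
        ((⌊(w + q) * J⌋₊ + ⌊p * J⌋₊ + 2 : ℕ) : ℝ) := by
      push_cast
      linarith
    exact_mod_cast this
  · have : ((⌊p * J⌋₊ + N : ℕ) : ℝ) ≤
        ((⌊(p + q) * J⌋₊ + ⌊G * J⌋₊ + 2 : ℕ) : ℝ) := by
      push_cast
      linarith
    exact_mod_cast this
  · have : ((⌊w * J⌋₊ + N : ℕ) : ℝ) ≤
        ((⌊(w + q) * J⌋₊ + ⌊G * J⌋₊ + 2 : ℕ) : ℝ) := by
      push_cast
      linarith
    exact_mod_cast this

theorem ldTwo_of (hN : NATStmt) : LDTwoStmt := by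
  intro S a R h₁ i₀ c s₂ r D σ hC act K W v₁ t e₁ Q₀ P g v₀ v ρ a₀ α hL ε hε
  obtain ⟨X₁, hX₁, hr⟩ := hL.radz
  obtain ⟨ε₀, X₀, hε₀, hX₀, h⟩ := ld2_core hN hC hL hε
  refine ⟨ε₀ / 2, min X₀ X₁, by positivity, lt_min hX₀ hX₁, fun X hX hXX w₁ w₂ hw1 hw2 hw => ?_⟩
  have hX1 := hXX.trans (min_le_right _ _)
  obtain ⟨hw10, hw11, hPg⟩ := hr w₁ (hw1.trans hX1)
  obtain ⟨hw20, hw21, -⟩ := hr w₂ (hw2.trans hX1)
  have hrot1 := hC.rot_nn hw10 hw11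
  have hrot2 := hC.rot_nn hw20 hw21
  have hw10' : (0 : ℝ) ≤ w₁ := by exact_mod_cast hw10
  have hw20' : (0 : ℝ) ≤ w₂ := by exact_mod_cast hw20
  obtain ⟨J₂, hJ₂⟩ := exists_nat_ge (Real.log 4 / (ε₀ / 2 * X) + 1)
  have l4 : 0 < Real.log 4 := Real.log_pos (by norm_num)
  refine Clp.mono (J₂ := J₂) ((h X hX (hXX.trans (min_le_left _ _)) w₁ w₂ hw1 hw2 hw).and
    hC.evlaw) ?_
  rintro J hJ F A ⟨hc, hlaw⟩ sg hsg h0 z₁ z₂ hz1 hz2 a s t E hdet hbd hE hlE hc1 hc2 n m dd r U N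
    q₁ q₂ hd1 hd2 h1 h2 h3
  have hJ' : Real.log 4 / (ε₀ / 2 * X) + 1 ≤ (J : ℝ) := hJ₂.trans (by exact_mod_cast hJ)
  have g1 : 0 ≤ Real.log 4 / (ε₀ / 2 * X) := by positivity
  have hJ0 : (0 : ℝ) < J := by linarith
  have hJ4 : Real.log 4 ≤ ε₀ / 2 * X * J := by
    have : Real.log 4 / (ε₀ / 2 * X) ≤ J := by linarith
    rw [div_le_iff₀ (by positivity)] at this
    linarith
  have hεX : 0 < ε₀ * X := by positivity
  obtain ⟨loss, k1, k2, k3⟩ := hc sg hsg h0 z₁ z₂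
    (hz1.mono (Nat.floor_le_floor (by nlinarith)) (Nat.floor_le_floor (by nlinarith)))
    (hz2.mono (Nat.floor_le_floor (by nlinarith)) (Nat.floor_le_floor (by nlinarith)))
    Unit Unit (fun _ => ()) (fun _ => ()) SL.unit SL.unit a s t (4 * E)
    (fun ω ω' hω hω' _ _ e e' => hdet ω ω' hω hω' e e') hbd (by linarith) (by
      rw [Real.log_mul (by norm_num) (by linarith)]
      linarith) n m dd r U N q₁ q₂ hd1 hd2 h1 h2 h3 (fun k hk ω hω => by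
      have b1 := (abs_le.1 (h1 k hk).1).1
      have b2 := (abs_le.1 (h2 k hk).1).1
      exact ⟨hc1.lvl (by linarith) hw10' (by positivity) (by linarith) (h1 k hk).2.2 ω hω,
        hc2.lvl (by linarith) hw20' (by positivity) (by linarith) (h2 k hk).2.2.2.1 ω hω⟩)
  refine ⟨loss, k1, k2.trans ?_, fun k hk => (vdf_cond hlaw _ _ ?_).trans (k3 k hk)⟩
  · refine mul_le_mul_of_nonneg_left ?_ (Nat.cast_nonneg m)
    refine (CH_mono_left hlaw.nonneg ?_).trans (CH_mono_cond hlaw.nonneg ?_)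
    · intro ω ω' _ _ e
      have x1 := (Prod.ext_iff.mp e).1
      exact Prod.ext rfl x1
    · intro ω ω' _ _ e
      exact (Prod.ext_iff.mp e).2
  · intro ω ω' _ _ e
    exact (Prod.ext_iff.mp (Prod.ext_iff.mp (Prod.ext_iff.mp e).2).2).2

end Pool.S6C
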