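import Pool.Agent.H23.S6E.Vdf3

/-!
# Deficits: change of the order of the coordinates

The static boxes of a plank in two orders of the last two coordinates.
-/

set_option autoImplicit false

namespace Pool.KA

open Finset Real
open Pool.Agent.H49.Ent Pool.Agent.H32.Dense Pool.STK Pool.K2S

variable {J : ℕ}

namespace Vd

section ord

variable {F : Fam 3 J} {p : F.Ω → ℝ} {σ σ' : Fin 3 → Fin 3} {a s t a' s' t' : F.Ω → ℝ} {τ : Type}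

/-- A static box determines a static box in another frame, if the coordinates are comparable. -/
theorem vdf_near (hp : IsLaw p) {r U N : ℕ} {C : ℝ} (Θ : F.Ω → τ) (hf : Fd p Θ a s t)
    (hn : ∀ ω ω', 0 < p ω → 0 < p ω' → a' ω = a' ω' ∧ s' ω = s' ω' ∧ t' ω = t' ω' →
      |mco (tfr σ' (a' ω) (s' ω) (t' ω)) (F.x ω) 0 - mco (tfr σ' (a' ω) (s' ω) (t' ω)) (F.x ω') 0| ≤
        1 / 2 ^ r →
      |mco (tfr σ' (a' ω) (s' ω) (t' ω)) (F.x ω) 1 - mco (tfr σ' (a' ω) (s' ω) (t' ω)) (F.x ω') 1| ≤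
        1 / 2 ^ U →
      |mco (tfr σ' (a' ω) (s' ω) (t' ω)) (F.x ω) 2 - mco (tfr σ' (a' ω) (s' ω) (t' ω)) (F.x ω') 2| ≤
        1 / 2 ^ N →
      ∀ i, |mco (tfr σ (a ω) (s ω) (t ω)) (F.x ω) i - mco (tfr σ (a ω) (s ω) (t ω)) (F.x ω') i| ≤
        C / 2 ^ ppr r U N i) :
    F.vdf p σ r U N a s t Θ ≤ F.vdf p σ' r U N a' s' t' Θ + (3 : ℕ) * Real.log (2 * C + 3) := by
  have h0 := hp.nonneg
  have k1 := CH_le_add h0 (F.X N) (F.sbx σ r U N a s t) (fun ω => (F.sbx σ' r U N a' s' t' ω, Θ ω))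
  have k2 : CH p (F.X N) (fun ω => (F.sbx σ r U N a s t ω, (F.sbx σ' r U N a' s' t' ω, Θ ω))) ≤
      CH p (F.X N) (fun ω => (F.sbx σ r U N a s t ω, Θ ω)) :=
    CH_mono_cond h0 fun _ _ _ _ e => Prod.ext (Prod.ext_iff.mp e).1
      (Prod.ext_iff.mp (Prod.ext_iff.mp e).2).2
  have k3 := Box.CH_sbx (F := F) (σ := σ) (a := a) (s := s) (t := t) (r := r) (U := U) (P := N)
    (C := C) hp (fun ω => (F.sbx σ' r U N a' s' t' ω, Θ ω)) (by
      intro ω ω' hω hω' e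
      have e1 := Prod.ext_iff.mp e
      refine ⟨hf.eq hω hω' e1.2, ?_⟩
      obtain ⟨⟨b1, b2, b3⟩, b4, b5, b6⟩ := (sbx_ext).1 e1.1
      have near : ∀ i, co F σ' a' s' t' i ω' = mco (tfr σ' (a' ω) (s' ω) (t' ω)) (F.x ω') i := by
        intro i
        unfold co
        rw [b1, b2, b3]
      refine hn ω ω' hω hω' ⟨b1, b2, b3⟩ ?_ ?_ ?_
      · rw [← near]
        exact Box.near_of_floor b4
      · rw [← near]
        exact Box.near_of_floor b5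
      · rw [← near]
        exact Box.near_of_floor b6)
  unfold Fam.vdf
  linarith

/-- **Change of the order of the coordinates**: from the order `(0, 1, 2)` to the order
`(0, 2, 1)`. -/
theorem vdf_swap (hp : IsLaw p) {r U N : ℕ} {B D : ℝ} (hB : 1 ≤ B) (hD : 1 ≤ D) (hU : U ≤ N)
    (h0 : σ' 0 = σ 0) (h1 : σ' 1 = σ 2) (h2 : σ' 2 = σ 1) (Θ : F.Ω → τ) (hf : Fd p Θ a s t)
    (hb : ∀ ω, 0 < p ω → |s ω| ≤ B ∧ |s' ω| ≤ B)
    (hn : ∀ ω, 0 < p ω → |s' ω * a' ω + t' ω - a ω| ≤ D * 2 ^ r / 2 ^ U ∧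
      |1 - s ω * s' ω| ≤ D * 2 ^ U / 2 ^ N ∧
      |(1 - s ω * s' ω) * a' ω - s ω * t' ω - t ω| ≤ D * 2 ^ r / 2 ^ N) :
    F.vdf p σ r U N a s t Θ ≤ F.vdf p σ' r U N a' s' t' Θ +
      (3 : ℕ) * Real.log (2 * (1 + B + 2 * D) + 3) := by
  refine vdf_near hp Θ hf ?_
  intro ω ω' hω _ _ g0 g1 g2 i
  obtain ⟨c1, c2, c3⟩ := hn ω hω
  obtain ⟨d1, d2⟩ := hb ω hω
  rw [Box.mco_tfr0, Box.mco_tfr0, h0] at g0
  rw [Box.mco_tfr1, Box.mco_tfr1, h0, h1] at g1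
  rw [Box.mco_tfr2, Box.mco_tfr2, h0, h1, h2] at g2
  obtain ⟨x, hx⟩ : ∃ x, x = F.x ω (σ 0) - F.x ω' (σ 0) := ⟨_, rfl⟩
  obtain ⟨y, hy⟩ : ∃ y, y = (F.x ω (σ 2) - a' ω * F.x ω (σ 0)) -
    (F.x ω' (σ 2) - a' ω * F.x ω' (σ 0)) := ⟨_, rfl⟩
  obtain ⟨z, hz⟩ : ∃ z, z = (F.x ω (σ 1) - s' ω * F.x ω (σ 2) - t' ω * F.x ω (σ 0)) -
    (F.x ω' (σ 1) - s' ω * F.x ω' (σ 2) - t' ω * F.x ω' (σ 0)) := ⟨_, rfl⟩
  rw [← hx] at g0
  rw [← hy] at g1
  rw [← hz] at g2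
  have pr : (0 : ℝ) < 2 ^ r := by positivity
  have pU : (0 : ℝ) < 2 ^ U := by positivity
  have pN : (0 : ℝ) < 2 ^ N := by positivity
  have hUN : (1 : ℝ) / 2 ^ N ≤ 1 / 2 ^ U :=
    one_div_le_one_div_of_le pU (pow_le_pow_right₀ (by norm_num) hU)
  have hx' : |x| ≤ 1 / 2 ^ r := g0
  fin_cases i
  · show |mco (tfr σ (a ω) (s ω) (t ω)) (F.x ω) 0 - mco (tfr σ (a ω) (s ω) (t ω)) (F.x ω') 0| ≤
      (1 + B + 2 * D) / 2 ^ r
    rw [Box.mco_tfr0, Box.mco_tfr0, ← hx]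
    refine hx'.trans (div_le_div_of_nonneg_right (by linarith) pr.le)
  · show |mco (tfr σ (a ω) (s ω) (t ω)) (F.x ω) 1 - mco (tfr σ (a ω) (s ω) (t ω)) (F.x ω') 1| ≤
      (1 + B + 2 * D) / 2 ^ U
    rw [Box.mco_tfr1, Box.mco_tfr1]
    have e : F.x ω (σ 1) - a ω * F.x ω (σ 0) - (F.x ω' (σ 1) - a ω * F.x ω' (σ 0)) =
        z + s' ω * y + (s' ω * a' ω + t' ω - a ω) * x := by
      rw [hx, hy, hz]
      ring
    rw [e]
    have k1 : |s' ω * y| ≤ B / 2 ^ U := by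
      rw [abs_mul]
      calc |s' ω| * |y| ≤ B * (1 / 2 ^ U) := mul_le_mul d2 g1 (abs_nonneg _) (by linarith)
        _ = B / 2 ^ U := by ring
    have k2 : |(s' ω * a' ω + t' ω - a ω) * x| ≤ D / 2 ^ U := by
      rw [abs_mul]
      calc |s' ω * a' ω + t' ω - a ω| * |x| ≤ (D * 2 ^ r / 2 ^ U) * (1 / 2 ^ r) :=
            mul_le_mul c1 hx' (abs_nonneg _) (by positivity)
        _ = D / 2 ^ U := by field_simp
    have k3 := abs_add_le (z + s' ω * y) ((s' ω * a' ω + t' ω - a ω) * x)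
    have k4 := abs_add_le z (s' ω * y)
    have e2 : (1 + B + 2 * D) / (2 : ℝ) ^ U = 1 / 2 ^ U + B / 2 ^ U + D / 2 ^ U + D / 2 ^ U := by
      ring
    have : 0 ≤ D / (2 : ℝ) ^ U := by positivity
    linarith
  · show |mco (tfr σ (a ω) (s ω) (t ω)) (F.x ω) 2 - mco (tfr σ (a ω) (s ω) (t ω)) (F.x ω') 2| ≤
      (1 + B + 2 * D) / 2 ^ N
    rw [Box.mco_tfr2, Box.mco_tfr2]
    have e : F.x ω (σ 2) - s ω * F.x ω (σ 1) - t ω * F.x ω (σ 0) -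
        (F.x ω' (σ 2) - s ω * F.x ω' (σ 1) - t ω * F.x ω' (σ 0)) =
        (1 - s ω * s' ω) * y - s ω * z +
          ((1 - s ω * s' ω) * a' ω - s ω * t' ω - t ω) * x := by
      rw [hx, hy, hz]
      ring
    rw [e]
    have k1 : |(1 - s ω * s' ω) * y| ≤ D / 2 ^ N := by
      rw [abs_mul]
      calc |1 - s ω * s' ω| * |y| ≤ (D * 2 ^ U / 2 ^ N) * (1 / 2 ^ U) :=
            mul_le_mul c2 g1 (abs_nonneg _) (by positivity)
        _ = D / 2 ^ N := by field_simp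
    have k2 : |s ω * z| ≤ B / 2 ^ N := by
      rw [abs_mul]
      calc |s ω| * |z| ≤ B * (1 / 2 ^ N) := mul_le_mul d1 g2 (abs_nonneg _) (by linarith)
        _ = B / 2 ^ N := by ring
    have k3 : |((1 - s ω * s' ω) * a' ω - s ω * t' ω - t ω) * x| ≤ D / 2 ^ N := by
      rw [abs_mul]
      calc |(1 - s ω * s' ω) * a' ω - s ω * t' ω - t ω| * |x| ≤
            (D * 2 ^ r / 2 ^ N) * (1 / 2 ^ r) :=
            mul_le_mul c3 hx' (abs_nonneg _) (by positivity)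
        _ = D / 2 ^ N := by field_simp
    have k4 := abs_add_le ((1 - s ω * s' ω) * y - s ω * z)
      (((1 - s ω * s' ω) * a' ω - s ω * t' ω - t ω) * x)
    have k5 := abs_sub ((1 - s ω * s' ω) * y) (s ω * z)
    have e2 : (1 + B + 2 * D) / (2 : ℝ) ^ N = 1 / 2 ^ N + B / 2 ^ N + D / 2 ^ N + D / 2 ^ N := by
      ring
    have : 0 ≤ (1 : ℝ) / (2 : ℝ) ^ N := by positivity
    linarith

end ord

end Vd

end Pool.KA
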